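import Pool.Agent.H.MP_dd1c2e_lc.alt.D

/-!
# Elementary properties of mistake trees
-/

namespace Pool.Agent.H.MP_dd1c2e_lc.Alt

open Finset

/-- Induction on `l`. -/
theorem Lit.nonempty {X Y : Type} {F : X → Y → Bool} : ∀ {l : ℕ} {A : Set X}, Lit F l A → A.Nonempty := by
  intro l
  induction l with
  | zero => exact fun h => h
  | succ l ih =>
    rintro A ⟨y, h1, -⟩
    obtain ⟨x, hx, -⟩ := ih h1
    exact ⟨x, hx⟩

/-- Induction on `l`, for all `A`, `B`. -/
theorem Lit.mono {X Y : Type} {F : X → Y → Bool} : ∀ {l : ℕ} {A B : Set X}, Lit F l A → A ⊆ B → Lit F l B := by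
  intro l
  induction l with
  | zero => exact fun h hAB => Set.Nonempty.mono hAB h
  | succ l ih =>
    rintro A B ⟨y, h1, h2⟩ hAB
    exact ⟨y, ih h1 fun x hx => ⟨hAB hx.1, hx.2⟩, ih h2 fun x hx => ⟨hAB hx.1, hx.2⟩⟩

/-- A mistake tree of depth `l + 1` contains one of depth `l`: `Lit F (l + 1) A → Lit F l A`.
(`Lit.mono` from the set of rows with value `true`.) -/
theorem Lit.pred {X Y : Type} {F : X → Y → Bool} {l : ℕ} {A : Set X} (h : Lit F (l + 1) A) : Lit F l A := by
  obtain ⟨y, h1, -⟩ := h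
  exact h1.mono fun x hx => hx.1

/-- `Lit F l A → m ≤ l → Lit F m A`. -/
theorem Lit.le {X Y : Type} {F : X → Y → Bool} {l m : ℕ} {A : Set X} (h : Lit F l A) (hm : m ≤ l) : Lit F m A := by
  induction hm with
  | refl => exact h
  | step _ ih => exact ih h.pred

/-- Two rows that differ in some column carry a mistake tree of depth one. -/
theorem Lit.one {X Y : Type} {F : X → Y → Bool} {A : Set X} {x x' : X} {y : Y} (hx : x ∈ A) (hx' : x' ∈ A)
    (h : F x y ≠ F x' y) : Lit F 1 A := by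
  cases h1 : F x y
  · have h2 : F x' y = true := by
      rw [h1] at h
      cases h3 : F x' y
      · exact absurd h3.symm h
      · rfl
    exact ⟨y, ⟨x', hx', h2⟩, ⟨x, hx, h1⟩⟩
  · have h2 : F x' y = false := by
      rw [h1] at h
      cases h3 : F x' y
      · rfl
      · exact absurd h3.symm h
    exact ⟨y, ⟨x, hx, h1⟩, ⟨x', hx', h2⟩⟩

/-- Two subsets of `A` on which the column `y` is constant with different values, both carrying a mistake tree of depth
`l`, give one of depth `l + 1` on `A`. (One of the two values is `true` and the other one `false`; `Lit.mono`.) -/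
theorem Lit.join {X Y : Type} {F : X → Y → Bool} {l : ℕ} {A B B' : Set X} {y : Y} {b b' : Bool} (hB : B ⊆ A)
    (hB' : B' ⊆ A) (h1 : ∀ x ∈ B, F x y = b) (h2 : ∀ x ∈ B', F x y = b') (hbb : b ≠ b') (hL : Lit F l B)
    (hL' : Lit F l B') : Lit F (l + 1) A := by
  cases b <;> cases b'
  · exact absurd rfl hbb
  · exact ⟨y, hL'.mono fun x hx => ⟨hB' hx, h2 x hx⟩, hL.mono fun x hx => ⟨hB hx, h1 x hx⟩⟩
  · exact ⟨y, hL.mono fun x hx => ⟨hB hx, h1 x hx⟩, hL'.mono fun x hx => ⟨hB' hx, h2 x hx⟩⟩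
  · exact absurd rfl hbb

/-- Relabeling the rows: if `F x y = F' (i x) y` on `A'`-rows, a mistake tree for `F'` on a set `A'` in the range of `i`
gives one for `F`: precisely, if every element of `A'` is `i x` for some `x`, and `F x y = F' (i x) y` for all `x`, `y`,
then `Lit F' l A' → Lit F l {x | i x ∈ A'}`.

Proof. Induction on `l`, for all `A'`. `l = 0`: an element of `A'` is `i x`. `l + 1`: with the same column `y`,
`{x | i x ∈ {z | z ∈ A' ∧ F' z y = true}} = {x | x ∈ {x | i x ∈ A'} ∧ F x y = true}`. -/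
theorem Lit.comap {X X' Y : Type} {F : X → Y → Bool} {F' : X' → Y → Bool} (i : X → X')
    (hF : ∀ x y, F x y = F' (i x) y) : ∀ (l : ℕ) (A' : Set X'), (∀ a ∈ A', ∃ x, i x = a) → Lit F' l A' →
      Lit F l {x | i x ∈ A'} := by
  intro l
  induction l with
  | zero =>
    rintro A' hA ⟨a, ha⟩
    obtain ⟨x, rfl⟩ := hA a ha
    exact ⟨x, ha⟩
  | succ l ih =>
    rintro A' hA ⟨y, h1, h2⟩
    refine ⟨y, ?_, ?_⟩
    · exact (ih _ (fun a ha => hA a ha.1) h1).mono fun x hx => ⟨hx.1, by rw [hF]; exact hx.2⟩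
    · exact (ih _ (fun a ha => hA a ha.1) h2).mono fun x hx => ⟨hx.1, by rw [hF]; exact hx.2⟩

end Pool.Agent.H.MP_dd1c2e_lc.Alt
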