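import Pool.Agent.H.MP_dd1c2e_lc.alt.Pce
import Pool.Agent.H.MP_dd1c2e_lc.alt.Lits

/-!
# Active pieces: the pieces on which a column is not constant
-/

namespace Pool.Agent.H.MP_dd1c2e_lc.Alt

open Finset

/-- The positions `x` with `x + 1 < N` such that the column `y` changes its value between the rows `x` and `x + 1`. -/
noncomputable def al {Y : Type} (f : ℕ → Y → Bool) (N : ℕ) (y : Y) : Finset ℕ :=
  (range (N - 1)).filter fun x => f x y ≠ f (x + 1) y

/-- The (first elements of the) pieces of the `j`-th partition inside which the column `y` changes its value. -/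
noncomputable def Tn {Y : Type} (f : ℕ → Y → Bool) (L N : ℕ) (y : Y) (j : ℕ) : Finset ℕ :=
  ((al f N y).filter fun x => st f L j (x + 1) = st f L j x).image (st f L j)

theorem card_Tn {Y : Type} (f : ℕ → Y → Bool) (L N : ℕ) (y : Y) (j : ℕ) : (Tn f L N y j).card ≤ (al f N y).card := by
  unfold Tn
  exact card_image_le.trans (card_filter_le _ _)

private theorem Act_le {Y : Type} (f : ℕ → Y → Bool) (L N : ℕ) (y : Y) (j a b : ℕ) (hb : b < N)
    (hab : a ≤ b) (h : st f L j a ∉ Tn f L N y j) (hst : st f L j b = st f L j a) :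
    ∀ t, a ≤ t → t ≤ b → f t y = f a y := by
  have hs : ∀ t, a ≤ t → t ≤ b → st f L j t = st f L j b := fun t h1 h2 =>
    st_between f L j b t (by rw [hst]; exact (st_le f L j a).trans h1) h2
  intro t hat
  induction t, hat using Nat.le_induction with
  | base => intro _; rfl
  | succ t hat ih =>
    intro htb
    rw [← ih (by omega)]
    by_contra hne
    apply h
    rw [← hst, ← hs t hat (by omega)]
    unfold Tn
    refine mem_image.2 ⟨t, mem_filter.2 ⟨?_, ?_⟩, rfl⟩
    · unfold al
      exact mem_filter.2 ⟨mem_range.2 (by omega), fun h1 => hne h1.symm⟩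
    · rw [hs t hat (by omega), hs (t + 1) (by omega) htb]

/-- On a piece that is not active the column is constant.

Proof. It suffices to treat `a ≤ b < N` in the same piece, `st j a = st j b = s` not in `Tn`. For `a ≤ t ≤ b` we have
`st j t = s` (`st_between` for `b`, since `s = st j a ≤ a ≤ t ≤ b`). For `a ≤ t < b` the value does not change between `t`
and `t + 1`: otherwise `t ∈ al` and `st j (t + 1) = st j t = s`, so `s ∈ Tn`. Induction on `t` from `a` to `b`. -/
theorem const_of_not_mem {Y : Type} (f : ℕ → Y → Bool) (L N : ℕ) (y : Y) (j x z : ℕ) (hx : x < N) (hz : z < N)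
    (h : st f L j x ∉ Tn f L N y j) (hxz : st f L j z = st f L j x) : f z y = f x y := by
  rcases le_total x z with hle | hle
  · exact Act_le f L N y j x z hz hle h hxz z hle le_rfl
  · exact (Act_le f L N y j z x hx hle (by rw [hxz]; exact h) hxz.symm x hle le_rfl).symm

/-- If a piece of the partition `j + 1` is active, the piece of the partition `j` containing it is active.

Proof. There is `t ∈ al` with `st (j + 1) (t + 1) = st (j + 1) t = st (j + 1) x`; use `st_coarse` twice. -/
theorem act_mono {Y : Type} (f : ℕ → Y → Bool) (L N : ℕ) (y : Y) (j x : ℕ)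
    (h : st f L (j + 1) x ∈ Tn f L N y (j + 1)) : st f L j x ∈ Tn f L N y j := by
  unfold Tn at h ⊢
  obtain ⟨t, ht, htx⟩ := mem_image.1 h
  rw [mem_filter] at ht
  refine mem_image.2 ⟨t, mem_filter.2 ⟨ht.1, st_coarse f L j _ _ ht.2⟩, st_coarse f L j _ _ htx⟩

end Pool.Agent.H.MP_dd1c2e_lc.Alt
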