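import Pool.Agent.H.MP_dd1c2e_lc.alt.Act

/-!
# The pieces carry smaller and smaller mistake trees
-/

namespace Pool.Agent.H.MP_dd1c2e_lc.Alt

open Finset

/-- For `j ≤ L` the pieces of the partition `j` do not carry mistake trees of depth `L + 1 - j`.

Proof. `j = 0`: `st 0 x = 0` and this is the hypothesis. `j + 1 ≤ L`: `L + 1 - (j + 1) = L - j ≥ 1` and `cs_not_lit` with
`s = st j x ≤ x`. -/
theorem st_not_lit {Y : Type} (f : ℕ → Y → Bool) (L N : ℕ) (hL : ∀ x < N, ¬ Lit f (L + 1) (Set.Icc 0 x)) (j x : ℕ)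
    (hj : j ≤ L) (hx : x < N) : ¬ Lit f (L + 1 - j) (Set.Icc (st f L j x) x) := by
  cases j with
  | zero =>
    have h := hL x hx
    simpa only [st, Nat.sub_zero] using h
  | succ j =>
    have e : L + 1 - (j + 1) = L - j := by omega
    rw [e, st]
    exact cs_not_lit f (L - j) (st f L j x) x (st_le f L j x) (by omega)

private theorem st_down {Y : Type} (f : ℕ → Y → Bool) (L x z : ℕ) : ∀ j, L ≤ j → st f L j x = st f L j z →
    st f L L x = st f L L z := by
  intro j hj
  induction j, hj using Nat.le_induction with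
  | base => exact fun h => h
  | succ j _ ih => exact fun h => ih (st_coarse f L j x z h)

/-- For `j ≥ L` no piece of the partition `j` is active.

Proof. Otherwise there is `t ∈ al` with `st j (t + 1) = st j t`; by `st_coarse` (induction on `j - L`)
`st L (t + 1) = st L t`. The rows `t` and `t + 1 < N` lie in `[st L (t + 1), t + 1]` and differ in the column `y`, so this
segment carries a mistake tree of depth `1` (`Lit.one`), against `st_not_lit` for `j = L`. -/
theorem act_top {Y : Type} (f : ℕ → Y → Bool) (L N : ℕ) (hL : ∀ x < N, ¬ Lit f (L + 1) (Set.Icc 0 x)) (y : Y)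
    (j x : ℕ) (hj : L ≤ j) : st f L j x ∉ Tn f L N y j := by
  intro h
  rw [Tn, mem_image] at h
  obtain ⟨t, ht, -⟩ := h
  rw [mem_filter, al, mem_filter, mem_range] at ht
  obtain ⟨⟨htN, hne⟩, hst⟩ := ht
  have h1 : st f L L (t + 1) = st f L L t := st_down f L (t + 1) t j hj hst
  have h2 : t + 1 < N := by omega
  have h3 := st_not_lit f L N hL L (t + 1) le_rfl h2
  have e : L + 1 - L = 1 := by omega
  rw [e] at h3
  refine h3 (Lit.one (x := t) (x' := t + 1) (y := y) ⟨?_, by omega⟩ ⟨st_le f L L (t + 1), le_rfl⟩ hne)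
  rw [h1]
  exact st_le f L L t

end Pool.Agent.H.MP_dd1c2e_lc.Alt
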