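import Pool.Agent.H.MP_dd1c2e_lc.alt.D
import Pool.Agent.H.MP_dd1c2e_lc.alt.Lits

/-!
# Greedy partitions of a segment of `ℕ` by mistake tree depth

`f : ℕ → Y → Bool` is a matrix with rows `0, 1, 2, ...`.
-/

namespace Pool.Agent.H.MP_dd1c2e_lc.Alt

open Finset

/-- Cut greedily from the left, starting with `s`: the last cut `≤ x` (a cut is made at `t` if the segment from the previous
cut up to and including `t` carries a mistake tree of depth `l`). -/
noncomputable def cs {Y : Type} (f : ℕ → Y → Bool) (l s : ℕ) : ℕ → ℕ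
  | 0 => s
  | x + 1 => by
      classical
      exact if x + 1 ≤ s then s else if Lit f l (Set.Icc (cs f l s x) (x + 1)) then x + 1 else cs f l s x

/-- `cs f l s x = s` for `x ≤ s`. -/
theorem cs_of_le {Y : Type} (f : ℕ → Y → Bool) (l s x : ℕ) (h : x ≤ s) : cs f l s x = s := by
  cases x with
  | zero => rw [cs]
  | succ x => rw [cs, if_pos h]

private theorem cs_step_aux {Y : Type} (f : ℕ → Y → Bool) (l s x : ℕ) (h : s ≤ x) :
    (cs f l s (x + 1) = x + 1 ∧ Lit f l (Set.Icc (cs f l s x) (x + 1))) ∨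
      (cs f l s (x + 1) = cs f l s x ∧ ¬ Lit f l (Set.Icc (cs f l s x) (x + 1))) := by
  rw [cs, if_neg (by omega)]
  by_cases hL : Lit f l (Set.Icc (cs f l s x) (x + 1))
  · exact Or.inl ⟨if_pos hL, hL⟩
  · exact Or.inr ⟨if_neg hL, hL⟩

/-- `s ≤ cs f l s x ≤ x` for `s ≤ x`. Induction on `x`. -/
theorem cs_mem {Y : Type} (f : ℕ → Y → Bool) (l s x : ℕ) (h : s ≤ x) : s ≤ cs f l s x ∧ cs f l s x ≤ x := by
  induction x, h using Nat.le_induction with
  | base => rw [cs_of_le f l s s le_rfl]; exact ⟨le_rfl, le_rfl⟩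
  | succ x hx ih =>
    rcases cs_step_aux f l s x hx with ⟨h1, _⟩ | ⟨h1, _⟩
    · rw [h1]; exact ⟨by omega, le_rfl⟩
    · rw [h1]; exact ⟨ih.1, by omega⟩

/-- One step: for `s ≤ x` either `cs (x + 1) = x + 1` and `[cs x, x + 1]` carries a mistake tree of depth `l`, or
`cs (x + 1) = cs x` and it does not. Unfold. -/
theorem cs_step {Y : Type} (f : ℕ → Y → Bool) (l s x : ℕ) (h : s ≤ x) :
    (cs f l s (x + 1) = x + 1 ∧ Lit f l (Set.Icc (cs f l s x) (x + 1))) ∨
      (cs f l s (x + 1) = cs f l s x ∧ ¬ Lit f l (Set.Icc (cs f l s x) (x + 1))) :=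
  cs_step_aux f l s x h

/-- Between the cut and `x` the last cut is the same. Induction on `x`: if `cs (x + 1) = x + 1` then `z = x + 1`; otherwise
`z = x + 1` or `cs (x + 1) = cs x ≤ z ≤ x`. -/
theorem cs_between {Y : Type} (f : ℕ → Y → Bool) (l s x z : ℕ) (h : s ≤ x) (h1 : cs f l s x ≤ z) (h2 : z ≤ x) :
    cs f l s z = cs f l s x := by
  induction x, h using Nat.le_induction with
  | base =>
    rw [cs_of_le f l s s le_rfl] at h1
    rw [le_antisymm h2 h1]
  | succ x hx ih =>
    rcases Nat.lt_or_ge x z with hz | hz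
    · rw [le_antisymm h2 hz]
    · rcases cs_step f l s x hx with ⟨h3, _⟩ | ⟨h3, _⟩
      · rw [h3] at h1
        omega
      · rw [h3] at h1 ⊢
        exact ih h1 hz

private theorem not_lit_single {Y : Type} (f : ℕ → Y → Bool) (l x : ℕ) (hl : 1 ≤ l) :
    ¬ Lit f l (Set.Icc x x) := by
  obtain ⟨m, rfl⟩ : ∃ m, l = m + 1 := ⟨l - 1, by omega⟩
  rintro ⟨y, h1, h2⟩
  obtain ⟨a, ha, ha'⟩ := h1.nonempty
  obtain ⟨b, hb, hb'⟩ := h2.nonempty
  have e1 : a = x := le_antisymm ha.2 ha.1
  have e2 : b = x := le_antisymm hb.2 hb.1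
  rw [e1] at ha'
  rw [e2, ha'] at hb'
  exact Bool.noConfusion hb'

/-- The segment `[cs x, x]` does not carry a mistake tree of depth `l`, if `l ≥ 1`.

Proof. Induction on `x ≥ s`. If `x = cs x` the segment is a single row, which carries no mistake tree of depth `≥ 1`: a
tree of depth `l ≥ 1` gives a column `y` and two rows in the segment with different values in `y` (both sets in the
definition are nonempty: prove first `Lit f l A → A.Nonempty` by induction on `l`). Otherwise `x = x' + 1` with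
`cs x = cs x'` and `cs_step`. -/
theorem cs_not_lit {Y : Type} (f : ℕ → Y → Bool) (l s x : ℕ) (h : s ≤ x) (hl : 1 ≤ l) :
    ¬ Lit f l (Set.Icc (cs f l s x) x) := by
  induction x, h using Nat.le_induction with
  | base =>
    rw [cs_of_le f l s s le_rfl]
    exact not_lit_single f l s hl
  | succ x hx ih =>
    rcases cs_step f l s x hx with ⟨h3, _⟩ | ⟨h3, h4⟩
    · rw [h3]
      exact not_lit_single f l _ hl
    · rw [h3]
      exact h4

end Pool.Agent.H.MP_dd1c2e_lc.Alt
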