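import Mathlib
import Pool.Agent.H.MP_dd1c2e_lc.Defs

/-!
# Randomized protocols, mistake trees, alternations, VC dimension one

The remaining definitions used in the statement of the result on matrices whose columns change their value rarely.
-/

namespace Pool.Agent.H.MP_dd1c2e_lc.Alt

open Finset

/-- `F` is computed with error at most `1/3` on every input by a randomized protocol with public unbiased coins (`r` fair
bits `ω`, seen by both parties) that exchanges at most `k` bits: `R_{1/3}(F) ≤ k`. For every value of the coins the
protocol is deterministic, and for every input at least two thirds of the `2^r` values of the coins give the right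
output. -/
def RandComputes {X Y : Type} (F : X → Y → Bool) (k : ℕ) : Prop :=
  ∃ (r : ℕ) (P : (Fin r → Bool) → DProt X Y), (∀ ω, (P ω).depth ≤ k) ∧
    ∀ x y, 2 * 2 ^ r ≤ 3 * (univ.filter fun ω => (P ω).run x y = F x y).card

/-- `Lit F l A`: the rows in `A` carry a mistake tree (Littlestone tree) of depth `l`: a complete binary tree of depth `l`
whose inner vertices are columns `y` and whose leaves are rows in `A`, such that a leaf below the left (right) child of
`y` has value `true` (`false`) in the column `y`. -/
def Lit {X Y : Type} (F : X → Y → Bool) : ℕ → Set X → Prop
  | 0, A => A.Nonempty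
  | l + 1, A => ∃ y, Lit F l {x | x ∈ A ∧ F x y = true} ∧ Lit F l {x | x ∈ A ∧ F x y = false}

/-- If the rows are listed in the order `e 0, e 1, ..., e (N - 1)`, this is the number of times the column `y` changes its
value. -/
noncomputable def alt {X Y : Type} {N : ℕ} (e : Fin N → X) (F : X → Y → Bool) (y : Y) : ℕ := by
  classical
  exact (univ.filter fun i : Fin N => ∃ h : i.1 + 1 < N, F (e i) y ≠ F (e ⟨i.1 + 1, h⟩) y).card

/-- The VC dimension of the set of rows is at most one: no two columns show all four patterns. -/
def VCOne {X Y : Type} (F : X → Y → Bool) : Prop :=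
  ∀ y y' : Y, ¬ ∀ a b : Bool, ∃ x, F x y = a ∧ F x y' = b

end Pool.Agent.H.MP_dd1c2e_lc.Alt
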