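import Pool.Agent.H.MP_dd1c2e_lc.alt.Srch

/-!
# The exact search and the pairs that the hash function has to separate
-/

namespace Pool.Agent.H.MP_dd1c2e_lc.Alt

open Finset

/-- Binary search with exact tests. -/
noncomputable def ex {Node : Type} (p : ℕ → Node) (T : ℕ → Finset Node) : ℕ → ℕ → ℕ
  | 0, lo => lo
  | m + 1, lo => by
      classical
      exact if p (lo + 2 ^ m) ∈ T (lo + 2 ^ m) then ex p T m (lo + 2 ^ m) else ex p T m lo

/-- The pairs that have to be separated during the search (`m` rounds, starting with `lo`), along the right path. -/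
noncomputable def prs {Node : Type} (p : ℕ → Node) (T : ℕ → Finset Node) : ℕ → ℕ → Finset (Node × Node)
  | 0, _ => ∅
  | m + 1, lo => by
      classical
      exact ((T (lo + 2 ^ m)).filter fun u => u ≠ p (lo + 2 ^ m)).image (fun u => (u, p (lo + 2 ^ m))) ∪
        (if p (lo + 2 ^ m) ∈ T (lo + 2 ^ m) then prs p T m (lo + 2 ^ m) else prs p T m lo)

/-- Its size: `card (A ∪ B) ≤ card A + card B`, `card (image) ≤ card`, `card (filter) ≤ card ≤ K`. Induction on `m`. -/
theorem card_prs {Node : Type} (p : ℕ → Node) (T : ℕ → Finset Node) (K : ℕ) (hK : ∀ j, (T j).card ≤ K) :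
    ∀ m lo, (prs p T m lo).card ≤ m * K := by
  classical
  intro m
  induction m with
  | zero =>
    intro lo
    simp [prs]
  | succ m ih =>
    intro lo
    unfold prs
    have h3 : (m + 1) * K = K + m * K := by ring
    rw [h3]
    refine (Finset.card_union_le _ _).trans (add_le_add ?_ ?_)
    · exact (Finset.card_image_le).trans ((Finset.card_filter_le _ _).trans (hK _))
    · split_ifs
      · exact ih _
      · exact ih _

/-- All pairs consist of different nodes. Induction on `m`. -/
theorem ne_prs {Node : Type} (p : ℕ → Node) (T : ℕ → Finset Node) :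
    ∀ m lo, ∀ w ∈ prs p T m lo, w.1 ≠ w.2 := by
  classical
  intro m
  induction m with
  | zero =>
    intro lo w hw
    simp [prs] at hw
  | succ m ih =>
    intro lo w hw
    unfold prs at hw
    rcases Finset.mem_union.1 hw with hw | hw
    · obtain ⟨u, hu, rfl⟩ := Finset.mem_image.1 hw
      exact (Finset.mem_filter.1 hu).2
    · split_ifs at hw
      · exact ih _ w hw
      · exact ih _ w hw

/-- The exact search finds a position on the path that is in `T`, such that the next one is not in `T`.

Proof. Induction on `m`, for all `lo`. `m = 0`: the answer is `lo` and `2 ^ 0 = 1`. `m + 1`: put `j = lo + 2^m`. If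
`p j ∈ T j` continue with `j` (note `j + 2^m = lo + 2^(m+1)`), otherwise continue with `lo`. -/
theorem ex_spec {Node : Type} (p : ℕ → Node) (T : ℕ → Finset Node) :
    ∀ m lo, p lo ∈ T lo → p (lo + 2 ^ m) ∉ T (lo + 2 ^ m) →
      p (ex p T m lo) ∈ T (ex p T m lo) ∧ p (ex p T m lo + 1) ∉ T (ex p T m lo + 1) := by
  classical
  intro m
  induction m with
  | zero =>
    intro lo h1 h2
    rw [pow_zero] at h2
    exact ⟨h1, h2⟩
  | succ m ih =>
    intro lo h1 h2
    unfold ex
    by_cases h : p (lo + 2 ^ m) ∈ T (lo + 2 ^ m)
    · rw [if_pos h]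
      have e : lo + 2 ^ (m + 1) = lo + 2 ^ m + 2 ^ m := by rw [pow_succ]; ring
      rw [e] at h2
      exact ih _ h h2
    · rw [if_neg h]
      exact ih _ h1 h

/-- If the hash function separates the pairs, the search with hashed nodes gives the same position as the exact search.

Proof. Induction on `m`, for all `lo`. Put `j = lo + 2^m`. If `p j ∈ T j` the test succeeds (take `u = p j`). If
`p j ∉ T j` the test fails, because a success would give `u ∈ T j` with `h u = h (p j)` and `u ≠ p j` (as `u ∈ T j`), so
`(u, p j)` is one of the pairs. In both cases the pairs of the remaining search are among the pairs. -/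
theorem srch_eq_ex {Node : Type} {b : ℕ} (h : Node → Fin b → Bool) (p : ℕ → Node) (T : ℕ → Finset Node) :
    ∀ m lo, (∀ w ∈ prs p T m lo, h w.1 ≠ h w.2) → srch h p T m lo = ex p T m lo := by
  classical
  intro m
  induction m with
  | zero =>
    intro lo _
    rfl
  | succ m ih =>
    intro lo hw
    have hl : ∀ u ∈ T (lo + 2 ^ m), u ≠ p (lo + 2 ^ m) →
        (u, p (lo + 2 ^ m)) ∈ prs p T (m + 1) lo := by
      intro u hu hne
      unfold prs
      exact Finset.mem_union_left _ (Finset.mem_image.2 ⟨u, Finset.mem_filter.2 ⟨hu, hne⟩, rfl⟩)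
    by_cases hj : p (lo + 2 ^ m) ∈ T (lo + 2 ^ m)
    · have ht : tst h T (lo + 2 ^ m) (h (p (lo + 2 ^ m))) = true := by
        unfold tst
        exact decide_eq_true ⟨_, hj, rfl⟩
      unfold srch ex
      rw [if_pos ht, if_pos hj]
      refine ih _ fun w hw' => hw w ?_
      unfold prs
      refine Finset.mem_union_right _ ?_
      rw [if_pos hj]
      exact hw'
    · have ht : ¬ tst h T (lo + 2 ^ m) (h (p (lo + 2 ^ m))) = true := by
        unfold tst
        intro h1
        obtain ⟨u, hu, huv⟩ := of_decide_eq_true h1
        have hne : u ≠ p (lo + 2 ^ m) := fun e => hj (e ▸ hu)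
        exact hw _ (hl u hu hne) huv
      unfold srch ex
      rw [if_neg ht, if_neg hj]
      refine ih _ fun w hw' => hw w ?_
      unfold prs
      refine Finset.mem_union_right _ ?_
      rw [if_neg hj]
      exact hw'

end Pool.Agent.H.MP_dd1c2e_lc.Alt
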