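import Pool.Agent.H.MP_dd1c2e_lc.alt.Act2

/-!
# Exceptional children: the others all have the same value
-/

namespace Pool.Agent.H.MP_dd1c2e_lc.Alt

open Finset

/-- The pieces of the partition `j + 1` that contain a row `x` such that the column changes its value between `x` and
`x + 1` and `x`, `x + 1` are in the same piece of the partition `j`. -/
noncomputable def E1 {Y : Type} (f : ℕ → Y → Bool) (L N : ℕ) (y : Y) (j : ℕ) : Finset ℕ :=
  ((al f N y).filter fun x => st f L j (x + 1) = st f L j x).image (st f L (j + 1))

/-- The last pieces of the partition `j + 1` in the active pieces of the partition `j`. -/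
noncomputable def E2 {Y : Type} (f : ℕ → Y → Bool) (L N : ℕ) (y : Y) (j : ℕ) : Finset ℕ :=
  ((range N).filter fun x => (x + 1 = N ∨ st f L j (x + 1) ≠ st f L j x) ∧ st f L j x ∈ Tn f L N y j).image
    (st f L (j + 1))

/-- The exceptional children. -/
noncomputable def En {Y : Type} (f : ℕ → Y → Bool) (L N : ℕ) (y : Y) (j : ℕ) : Finset ℕ := E1 f L N y j ∪ E2 f L N y j

/-- Every piece has only one last element: the map `st j` is injective on the set of rows `x < N` with
`x + 1 = N ∨ st j (x + 1) ≠ st j x` and `st j x ∈ Tn`, with values in `Tn`, so this set has at most `card Tn` elements.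

Proof of injectivity. If `x < x'` are both in the set and `st j x = st j x'`, then `st j x' ≤ x < x + 1 ≤ x'`, so
`st j (x + 1) = st j x' = st j x` by `st_between`, and `x + 1 ≤ x' < N`: a contradiction. -/
theorem card_E2 {Y : Type} (f : ℕ → Y → Bool) (L N : ℕ) (y : Y) (j : ℕ) : (E2 f L N y j).card ≤ (Tn f L N y j).card := by
  have key : ∀ a b : ℕ, a < b → b < N → (a + 1 = N ∨ st f L j (a + 1) ≠ st f L j a) →
      st f L j a ≠ st f L j b := by
    intro a b hab hb ha he
    have h1 : st f L j b ≤ a + 1 := by
      rw [← he]
      exact (st_le f L j a).trans (by omega)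
    have h2 : st f L j (a + 1) = st f L j b := st_between f L j b (a + 1) h1 (by omega)
    rcases ha with h3 | h3
    · omega
    · exact h3 (h2.trans he.symm)
  unfold E2
  refine card_image_le.trans ?_
  refine card_le_card_of_injOn (st f L j) (fun x hx => ?_) (fun a ha b hb hab => ?_)
  · exact (mem_filter.1 (mem_coe.1 hx)).2.2
  · have ha' := mem_filter.1 (mem_coe.1 ha)
    have hb' := mem_filter.1 (mem_coe.1 hb)
    rcases lt_trichotomy a b with h | h | h
    · exact absurd hab (key a b h (mem_range.1 hb'.1) ha'.2.1)
    · exact h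
    · exact absurd hab.symm (key b a h (mem_range.1 ha'.1) hb'.2.1)

theorem card_En {Y : Type} (f : ℕ → Y → Bool) (L N : ℕ) (y : Y) (j : ℕ) :
    (En f L N y j).card ≤ 2 * (al f N y).card := by
  have h1 : (E1 f L N y j).card ≤ (al f N y).card := by
    unfold E1
    exact card_image_le.trans (card_filter_le _ _)
  have h2 := (card_E2 f L N y j).trans (card_Tn f L N y j)
  have h3 : (En f L N y j).card ≤ (E1 f L N y j).card + (E2 f L N y j).card := card_union_le _ _
  omega

end Pool.Agent.H.MP_dd1c2e_lc.Alt
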