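import Pool.Agent.H.MP_dd1c2e_lc.alt.Exc

/-!
# All children that are not exceptional have the same value
-/

namespace Pool.Agent.H.MP_dd1c2e_lc.Alt

open Finset

/-- A child that is not exceptional has a next child in the same active piece, and the column is constant up to the first
element `r'` of the next child; the segment from the first element of the child to `r'` carries a mistake tree of depth
`L - j`.

Proof. Let `r = st (j + 1) x`, `s = st j x`. Let `t` be the largest number `< N` with `st (j + 1) t = r` (`x` is one); then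
`st j t = s` by `st_coarse`. If `t + 1 = N` or `st j (t + 1) ≠ st j t` then `r ∈ E2`; so `t + 1 < N` and
`st j (t + 1) = s`. Put `r' = t + 1`. By the choice of `t`, `st (j + 1) (t + 1) ≠ r`. As
`st (j + 1) (t + 1) = cs f (L - j) s (t + 1)` and `r = st (j + 1) t = cs f (L - j) s t`, `cs_step` gives
`Lit f (L - j) (Icc r (t + 1))`. For `r ≤ z ≤ t`: `st (j + 1) z = r` (`st_between` for `t`), and
`st j (z + 1) = st j z = s` (`st_between` for `t + 1`, since `s ≤ r ≤ z`); if the column changed its value between `z` and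
`z + 1` we would have `z ∈ al` (`z + 1 ≤ t + 1 < N`) and `r ∈ E1`. So the column is constant on `[r, t + 1]`, which
contains `x` (`r ≤ x ≤ t`). -/
theorem next_child {Y : Type} (f : ℕ → Y → Bool) (L N : ℕ) (y : Y) (j x : ℕ) (hx : x < N)
    (hT : st f L j x ∈ Tn f L N y j) (hE : st f L (j + 1) x ∉ En f L N y j) :
    ∃ r', r' < N ∧ st f L (j + 1) x ≤ r' ∧ st f L j r' = st f L j x ∧
      Lit f (L - j) (Set.Icc (st f L (j + 1) x) r') ∧
      ∀ z ∈ Set.Icc (st f L (j + 1) x) r', f z y = f x y := by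
  classical
  obtain ⟨r, hr⟩ : ∃ r, r = st f L (j + 1) x := ⟨_, rfl⟩
  obtain ⟨s, hs⟩ : ∃ s, s = st f L j x := ⟨_, rfl⟩
  have hTne : ((range N).filter fun t => st f L (j + 1) t = r).Nonempty :=
    ⟨x, mem_filter.2 ⟨mem_range.2 hx, hr.symm⟩⟩
  obtain ⟨t, ht⟩ : ∃ t, t = ((range N).filter fun t => st f L (j + 1) t = r).max' hTne := ⟨_, rfl⟩
  have htm := Finset.max'_mem _ hTne
  rw [← ht, mem_filter, mem_range] at htm
  obtain ⟨htN, htr⟩ := htm
  have hmax : ∀ u, u < N → st f L (j + 1) u = r → u ≤ t := by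
    intro u hu hur
    rw [ht]
    exact Finset.le_max' _ _ (mem_filter.2 ⟨mem_range.2 hu, hur⟩)
  have hxt : x ≤ t := hmax x hx hr.symm
  have hrx : r ≤ x := by
    rw [hr]
    exact st_le f L (j + 1) x
  have hsr : s ≤ r := by
    rw [hr, hs]
    exact st_mono f L j x
  have hst : st f L j t = s := by
    rw [hs]
    exact st_coarse f L j t x (by rw [htr, hr])
  have hnot : ¬ (t + 1 = N ∨ st f L j (t + 1) ≠ st f L j t) := by
    intro h
    apply hE
    rw [← hr, En, mem_union]
    right
    rw [E2, mem_image]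
    refine ⟨t, mem_filter.2 ⟨mem_range.2 htN, h, ?_⟩, htr⟩
    rw [hst, hs]
    exact hT
  push Not at hnot
  obtain ⟨hn1, hn2⟩ := hnot
  rw [hst] at hn2
  have hcs := cs_step f (L - j) s t (le_trans hsr (le_trans hrx hxt))
  have e1 : cs f (L - j) s t = r := by
    rw [← htr, st, hst]
  have e2 : cs f (L - j) s (t + 1) = st f L (j + 1) (t + 1) := by
    rw [st, hn2]
  rw [e1, e2] at hcs
  have hlit : Lit f (L - j) (Set.Icc r (t + 1)) := by
    rcases hcs with ⟨_, h⟩ | ⟨h, _⟩
    · exact h
    · have := hmax (t + 1) (by omega) h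
      omega
  -- the column is constant
  have hstep : ∀ z, r ≤ z → z ≤ t → f (z + 1) y = f z y := by
    intro z h1 h2
    by_contra hne
    apply hE
    rw [← hr, En, mem_union]
    left
    rw [E1, mem_image]
    have h3 : st f L (j + 1) z = r := by
      rw [← htr]
      exact st_between f L (j + 1) t z (by rw [htr]; exact h1) h2
    have h4 : st f L j z = s := by
      rw [← hst]
      exact st_between f L j t z (by rw [hst]; omega) h2
    have h5 : st f L j (z + 1) = s := by
      rw [← hn2]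
      exact st_between f L j (t + 1) (z + 1) (by rw [hn2]; omega) (by omega)
    refine ⟨z, mem_filter.2 ⟨?_, by rw [h4, h5]⟩, h3⟩
    rw [al, mem_filter, mem_range]
    exact ⟨by omega, fun h => hne h.symm⟩
  have hconst : ∀ z, r ≤ z → z ≤ t + 1 → f z y = f r y := by
    intro z h1
    induction z, h1 using Nat.le_induction with
    | base => intro _; rfl
    | succ z hz ih =>
      intro h2
      rw [hstep z hz (by omega)]
      exact ih (by omega)
  refine ⟨t + 1, by omega, ?_, ?_, ?_, ?_⟩
  · rw [← hr]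
    omega
  · rw [hn2, hs]
  · rw [← hr]
    exact hlit
  · intro z hz
    rw [← hr] at hz
    rw [hconst z hz.1 hz.2, hconst x hrx (by omega)]

/-- All children of an active piece that are not exceptional have the same value.

Proof. `j < L` by `act_top`. Take `r₁'`, `r₂'` from `next_child` and `m = max r₁' r₂'`, `s = st j x₁ = st j x₂`; `m` is one
of them, so `m < N` and `st j m = s`. By `st_not_lit` the segment `[s, m]` does not carry a mistake tree of depth
`L + 1 - j = (L - j) + 1`. If `f x₁ y ≠ f x₂ y`, `Lit.join` with `B = [st (j + 1) x₁, r₁']`, `B' = [st (j + 1) x₂, r₂']`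
(contained in `[s, m]` because of `st_mono`) gives one. -/
theorem default_eq {Y : Type} (f : ℕ → Y → Bool) (L N : ℕ) (hL : ∀ x < N, ¬ Lit f (L + 1) (Set.Icc 0 x)) (y : Y)
    (j x₁ x₂ : ℕ) (hx₁ : x₁ < N) (hx₂ : x₂ < N) (hT : st f L j x₁ ∈ Tn f L N y j) (h12 : st f L j x₁ = st f L j x₂)
    (hE₁ : st f L (j + 1) x₁ ∉ En f L N y j) (hE₂ : st f L (j + 1) x₂ ∉ En f L N y j) : f x₁ y = f x₂ y := by
  by_contra hne
  have hj : j < L := by
    by_contra h
    exact act_top f L N hL y j x₁ (by omega) hT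
  obtain ⟨r₁, a1, a2, a3, a4, a5⟩ := next_child f L N y j x₁ hx₁ hT hE₁
  obtain ⟨r₂, b1, b2, b3, b4, b5⟩ := next_child f L N y j x₂ hx₂ (by rw [← h12]; exact hT) hE₂
  have c1 := st_mono f L j x₁
  have c2 := st_mono f L j x₂
  obtain ⟨m, hm, hm1, hm2, hmN⟩ : ∃ m, st f L j m = st f L j x₁ ∧ r₁ ≤ m ∧ r₂ ≤ m ∧ m < N := by
    rcases le_total r₁ r₂ with h | h
    · exact ⟨r₂, by rw [b3, h12], h, le_rfl, b1⟩
    · exact ⟨r₁, a3, le_rfl, h, a1⟩
  have h1 := st_not_lit f L N hL j m hj.le hmN
  have e : L + 1 - j = (L - j) + 1 := by omega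
  rw [hm, e] at h1
  apply h1
  refine Lit.join (B := Set.Icc (st f L (j + 1) x₁) r₁) (B' := Set.Icc (st f L (j + 1) x₂) r₂)
    (y := y) ?_ ?_ a5 b5 hne a4 b4
  · exact Set.Icc_subset_Icc c1 hm1
  · exact Set.Icc_subset_Icc (by rw [h12]; exact c2) hm2

end Pool.Agent.H.MP_dd1c2e_lc.Alt
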