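import Pool.Agent.H.MP_dd1c2e_lc.alt.RandN
import Pool.Agent.H.MP_dd1c2e_lc.pdt.Comp

/-!
# The randomized protocol, for rows in an arbitrary order
-/

namespace Pool.Agent.H.MP_dd1c2e_lc.Alt

open Finset

/-- Relabeling the rows: use the same coins and `comp_comap` with `i` and `id` for every value of the coins. -/
theorem RandComputes.comap {X X' Y : Type} {F : X' → Y → Bool} {k : ℕ} (i : X → X') (h : RandComputes F k) :
    RandComputes (fun x y => F (i x) y) k := by
  obtain ⟨r, P, hP, hF⟩ := h
  choose Q hQ1 hQ2 using fun ω => comp_comap i (id : Y → Y) (P ω)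
  refine ⟨r, Q, fun ω => ?_, fun x y => ?_⟩
  · rw [hQ1]
    exact hP ω
  · have h1 : (univ.filter fun ω => (Q ω).run x y = F (i x) y) =
        univ.filter fun ω => (P ω).run (i x) y = F (i x) y := by
      apply Finset.filter_congr
      intro ω _
      rw [hQ2 ω x y]
      rfl
    rw [h1]
    exact hF (i x) y

/-- The randomized communication complexity of a matrix whose columns change their value at most `K` times and whose
mistake trees have depth at most `2 ^ M`.

Proof. Let `f n y = F (e ⟨n, h⟩) y` if `h : n < N` and `false` otherwise. `rand_nat` for `f` with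
`b = Nat.clog 2 (3 * ((M + 3) * K))` (`Nat.le_pow_clog`) and then `RandComputes.comap e.symm` (note
`f (e.symm x).1 y = F (e (e.symm x)) y = F x y`). The set `al f N y` has the same cardinality as the set in the definition
of `alt e F y` (bijection `Fin.val`), or at most that. Mistake trees: if `Lit f (2 ^ M + 1) (Icc 0 x)` with `x < N`, then
`Lit.comap` for `i = (fun x : X => (e.symm x).1)` and `A' = Icc 0 x` (every `a ≤ x < N` is `i (e ⟨a, _⟩)`) and `Lit.mono`
give `Lit F (2 ^ M + 1) univ`. -/
theorem rand_alt {X Y : Type} (N K M : ℕ) (e : Fin N ≃ X) (F : X → Y → Bool) (hK : ∀ y, alt e F y ≤ K)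
    (hL : ¬ Lit F (2 ^ M + 1) Set.univ) :
    RandComputes F ((M + 2) * (Nat.clog 2 (3 * ((M + 3) * K)) + 1)) := by
  classical
  set f : ℕ → Y → Bool := fun n y => if h : n < N then F (e ⟨n, h⟩) y else false with hf
  have hfe : ∀ (i : Fin N) y, f i.1 y = F (e i) y := by
    intro i y
    simp only [hf, dif_pos i.2]
  have hfx : ∀ x y, F x y = f (e.symm x).1 y := by
    intro x y
    rw [hfe, Equiv.apply_symm_apply]
  have hal : ∀ y, (al f N y).card ≤ K := by
    intro y
    refine le_trans ?_ (hK y)
    unfold alt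
    refine le_trans (Finset.card_le_card ?_) (Finset.card_image_le (f := fun i : Fin N => i.1))
    intro n hn
    unfold al at hn
    rw [Finset.mem_filter, Finset.mem_range] at hn
    have h1 : n < N := by omega
    have h2 : n + 1 < N := by omega
    rw [Finset.mem_image]
    refine ⟨⟨n, h1⟩, ?_, rfl⟩
    rw [Finset.mem_filter]
    refine ⟨Finset.mem_univ _, h2, ?_⟩
    have h3 := hn.2
    rw [← hfe ⟨n, h1⟩ y, ← hfe ⟨n + 1, h2⟩ y]
    exact h3
  have hlit : ∀ x < N, ¬ Lit f (2 ^ M + 1) (Set.Icc 0 x) := by
    intro x hx h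
    apply hL
    have h1 := Lit.comap (F := F) (F' := f) (fun x : X => (e.symm x).1) hfx (2 ^ M + 1)
      (Set.Icc 0 x) (fun a ha => ⟨e ⟨a, lt_of_le_of_lt ha.2 hx⟩, by simp⟩) h
    exact h1.mono (Set.subset_univ _)
  have h := rand_nat N K M (Nat.clog 2 (3 * ((M + 3) * K))) f hal hlit
    (Nat.le_pow_clog (by norm_num) _)
  have h2 := RandComputes.comap (fun x : X => e.symm x) h
  have h3 : (fun (x : X) y => f (e.symm x).1 y) = F := by
    funext x y
    exact (hfx x y).symm
  rw [h3] at h2
  exact h2

end Pool.Agent.H.MP_dd1c2e_lc.Alt
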