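import Pool.Agent.H.MP_dd1c2e_lc.alt.Lam2

/-!
# Matrices of VC dimension one
-/

namespace Pool.Agent.H.MP_dd1c2e_lc.Alt

open Finset

private theorem VC_bool {u v w : Bool} (h1 : u ≠ w) (h2 : v ≠ w) : u = v := by
  revert u v w
  decide

/-- If the set of rows has VC dimension at most one (and is finite), the rows can be ordered such that every column changes
its value at most twice.

Proof. If there is no row take `N = 0` (`Equiv.equivOfIsEmpty`). Otherwise let `x₀` be a row and
`S y = {x | F x y ≠ F x₀ y}`. Laminarity: let `y`, `y'` be columns. By `VCOne` there are `a`, `b` such that no row `x` has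
`F x y = a`, `F x y' = b`; the row `x₀` excludes `a = F x₀ y ∧ b = F x₀ y'`. If `a = F x₀ y`, `b ≠ F x₀ y'`, then every
`x ∈ S y'` is in `S y`, i.e. `S y' ⊆ S y`; if `a ≠ F x₀ y`, `b = F x₀ y'`, then `S y ⊆ S y'`; if both are different, the
two sets are disjoint. So the family of all sets `S y` (a finite set of subsets of the finite type `X`:
`univ.filter (∃ y, S = S y)`) is laminar, and `laminar_order` gives an order with `e i ∈ S y ↔ a ≤ i ∧ i < b`. If the
column `y` changes its value between `e i` and `e (i + 1)` then exactly one of them is in `S y`, so `i + 1 = a` or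
`i + 1 = b`: these are at most two values of `i`. -/
theorem vc_alt {X Y : Type} [Finite X] (F : X → Y → Bool) (h : VCOne F) :
    ∃ (N : ℕ) (e : Fin N ≃ X), ∀ y, alt e F y ≤ 2 := by
  classical
  have := Fintype.ofFinite X
  rcases isEmpty_or_nonempty X with hX | ⟨⟨x₀⟩⟩
  · refine ⟨0, Equiv.equivOfIsEmpty _ _, fun y => ?_⟩
    unfold alt
    refine (Finset.card_le_univ _).trans ?_
    rw [Fintype.card_fin]
    exact Nat.zero_le 2
  let S : Y → Finset X := fun y => univ.filter fun x => F x y ≠ F x₀ y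
  have hS : ∀ y x, x ∈ S y ↔ F x y ≠ F x₀ y := fun y x => by
    simp only [S, Finset.mem_filter, Finset.mem_univ, true_and]
  have hlam : ∀ y y', S y ⊆ S y' ∨ S y' ⊆ S y ∨ Disjoint (S y) (S y') := by
    intro y y'
    have h1 := h y y'
    push Not at h1
    obtain ⟨a, b, hab⟩ := h1
    by_cases ha : a = F x₀ y
    · by_cases hb : b = F x₀ y'
      · exact absurd hb.symm (hab x₀ ha.symm)
      · refine Or.inr (Or.inl fun x hx => ?_)
        rw [hS] at hx ⊢
        intro hxy
        exact hab x (hxy.trans ha.symm) (VC_bool hx hb)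
    · by_cases hb : b = F x₀ y'
      · refine Or.inl fun x hx => ?_
        rw [hS] at hx ⊢
        intro hxy
        exact hab x (VC_bool hx ha) (hxy.trans hb.symm)
      · refine Or.inr (Or.inr (Finset.disjoint_left.2 fun x hx hx' => ?_))
        rw [hS] at hx hx'
        exact hab x (VC_bool hx ha) (VC_bool hx' hb)
  let 𝒮 : Finset (Finset X) := univ.filter fun T => ∃ y, T = S y
  have hmem : ∀ y, S y ∈ 𝒮 := fun y => Finset.mem_filter.2 ⟨Finset.mem_univ _, y, rfl⟩
  obtain ⟨N, e, he⟩ := laminar_order 𝒮 (by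
    intro T hT T' hT'
    obtain ⟨-, y, rfl⟩ := Finset.mem_filter.1 hT
    obtain ⟨-, y', rfl⟩ := Finset.mem_filter.1 hT'
    exact hlam y y')
  refine ⟨N, e, fun y => ?_⟩
  obtain ⟨a, b, hab⟩ := he (S y) (hmem y)
  have hone : ∀ c : ℕ, (univ.filter fun i : Fin N => i.1 + 1 = c).card ≤ 1 := by
    intro c
    rw [Finset.card_le_one]
    intro i hi j hj
    have h1 := (Finset.mem_filter.1 hi).2
    have h2 := (Finset.mem_filter.1 hj).2
    exact Fin.ext (by omega)
  unfold alt
  refine (Finset.card_le_card (t := (univ.filter fun i : Fin N => i.1 + 1 = a) ∪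
    (univ.filter fun i : Fin N => i.1 + 1 = b)) ?_).trans
    ((Finset.card_union_le _ _).trans (by
      have h1 := hone a
      have h2 := hone b
      omega))
  intro i hi
  obtain ⟨hN, hne⟩ := (Finset.mem_filter.1 hi).2
  have h1 := hab i
  have h2 := hab ⟨i.1 + 1, hN⟩
  rw [hS] at h1 h2
  have h3 : ¬ ((F (e i) y ≠ F x₀ y) ↔ (F (e ⟨i.1 + 1, hN⟩) y ≠ F x₀ y)) := by
    intro h4
    by_cases h5 : F (e i) y = F x₀ y
    · have h6 : F (e ⟨i.1 + 1, hN⟩) y = F x₀ y := by
        by_contra h7
        exact h4.2 h7 h5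
      exact hne (h5.trans h6.symm)
    · exact hne (VC_bool h5 (h4.1 h5))
  rw [h1, h2] at h3
  simp only at h3
  rw [Finset.mem_union, Finset.mem_filter, Finset.mem_filter]
  have h4 : i.1 + 1 = a ∨ i.1 + 1 = b := by
    by_contra h5
    rw [not_or] at h5
    apply h3
    constructor
    · rintro ⟨c1, c2⟩
      exact ⟨by omega, by omega⟩
    · rintro ⟨c1, c2⟩
      exact ⟨by omega, by omega⟩
  rcases h4 with h4 | h4
  · exact Or.inl ⟨Finset.mem_univ _, h4⟩
  · exact Or.inr ⟨Finset.mem_univ _, h4⟩

end Pool.Agent.H.MP_dd1c2e_lc.Alt
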