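import Pool.Agent.H.MP_dd1c2e_lc.alt.PercB
import Pool.Agent.H.MP_dd1c2e_lc.alt.RandX
import Pool.Agent.H.MP_dd1c2e_lc.alt.VC

/-!
# Randomized against quantum communication for matrices with few alternations
-/

namespace Pool.Agent.H.MP_dd1c2e_lc.Alt

open Finset

/-- Proof. By `lit_quantum` a mistake tree of depth `l` has `l ≤ 36 (4^q + 1)² ≤ 36 (2 * 4^q)² = 144 * 16^q < 2^(4 q + 8)`,
so `¬ Lit F (2 ^ (4 q + 8) + 1) univ`; `rand_alt` with `M = 4 q + 8`. -/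
theorem rand_quantum {X Y : Type} (N K q : ℕ) (e : Fin N ≃ X) (F : X → Y → Bool) (hK : ∀ y, alt e F y ≤ K)
    (hq : QuantumComputes F q) :
    RandComputes F ((4 * q + 10) * (Nat.clog 2 (3 * ((4 * q + 11) * K)) + 1)) := by
  have hL : ¬ Lit F (2 ^ (4 * q + 8) + 1) Set.univ := by
    intro hl
    have h1 := lit_quantum F q _ hq hl
    have h2 : (1 : ℕ) ≤ 4 ^ q := Nat.one_le_pow _ _ (by norm_num)
    have h3 : (2 : ℕ) ^ (4 * q + 8) = 256 * (4 ^ q) ^ 2 := by
      rw [pow_add, pow_mul, ← pow_mul 4 q 2, mul_comm q 2, pow_mul 4 2 q]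
      norm_num
      ring
    rw [h3] at h1
    nlinarith [h1, h2, Nat.mul_le_mul h2 h2]
  exact rand_alt N K (4 * q + 8) e F hK hL

/-- Proof. `vc_alt` and `rand_quantum` with `K = 2`. -/
theorem rand_vc {X Y : Type} [Finite X] (q : ℕ) (F : X → Y → Bool) (h : VCOne F) (hq : QuantumComputes F q) :
    RandComputes F ((4 * q + 10) * (Nat.clog 2 (3 * ((4 * q + 11) * 2)) + 1)) := by
  obtain ⟨N, e, he⟩ := vc_alt F h
  exact rand_quantum N 2 q e F he hq

end Pool.Agent.H.MP_dd1c2e_lc.Alt
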