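import Pool.Agent.H.MP_dd1c2e_lc.alt.D

/-!
# Random hash functions
-/

namespace Pool.Agent.H.MP_dd1c2e_lc.Alt

open Finset

/-- Two different nodes collide with probability `2^(-b)`.

Proof. Fix `u ≠ v`. The map `h ↦ (h' , c)` with `h' = Function.update h u (h v)` and `c = h u` is a bijection from all
`h : Node → (Fin b → Bool)` onto `{h' | h' u = h' v} × (Fin b → Bool)` with inverse `(h', c) ↦ Function.update h' u c`.
Compare cardinalities; `Fintype.card (Fin b → Bool) = 2 ^ b`. -/
theorem card_collide {Node : Type} [Fintype Node] [DecidableEq Node] (b : ℕ) (u v : Node) (huv : u ≠ v) :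
    (univ.filter fun h : Node → Fin b → Bool => h u = h v).card * 2 ^ b =
      Fintype.card (Node → Fin b → Bool) := by
  have hvu : v ≠ u := fun h => huv h.symm
  let E : (Node → Fin b → Bool) ≃ {h : Node → Fin b → Bool // h u = h v} × (Fin b → Bool) :=
    { toFun := fun h => (⟨Function.update h u (h v), by
        rw [Function.update_self, Function.update_of_ne hvu]⟩, h u)
      invFun := fun w => Function.update w.1.1 u w.2
      left_inv := by
        intro h
        simp only [Function.update_idem]
        exact Function.update_eq_self u h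
      right_inv := by
        rintro ⟨⟨h', hh⟩, c⟩
        refine Prod.ext (Subtype.ext ?_) ?_
        · simp only [Function.update_idem, Function.update_of_ne hvu]
          rw [← hh]
          exact Function.update_eq_self u h'
        · simp only [Function.update_self] }
  have h1 := Fintype.card_congr E
  rw [Fintype.card_prod, Fintype.card_subtype] at h1
  rw [h1]
  congr 1
  simp

/-- If for every pair of inputs there is a set of at most `m` pairs of different nodes such that the protocol is right for
all hash functions that separate these pairs, and `3 m ≤ 2^b`, then the error is at most `1/3`.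

Proof. Let `r = Fintype.card Node * b`; `Fintype.card (Node → Fin b → Bool) = 2 ^ r`, so there is an equivalence
`σ : (Fin r → Bool) ≃ (Node → Fin b → Bool)` (`Fintype.equivOfCardEq`). Use the coins `ω` and the deterministic protocol
obtained from `hdet (σ ω)` (choice). For fixed `x`, `y` the set of bad `h` is contained in the union over the pairs
`(u, v) ∈ S x y` of `{h | h u = h v}` (`Finset.card_biUnion_le`), so by `card_collide` `bad * 2^b ≤ m * 2^r`, hence
`3 * bad ≤ 2^r` (because `3 m ≤ 2^b`: `3 * bad * 2^b ≤ 3 m 2^r ≤ 2^b 2^r`), and `good ≥ 2^r - bad`, so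
`3 * good ≥ 2 * 2^r`. The number of good `ω` equals the number of good `h` because `σ` is a bijection
(`Finset.card_bij` or `Fintype.card_congr`). -/
theorem rand_of_hash {X Y Node : Type} [Fintype Node] [DecidableEq Node] (F : X → Y → Bool) (b k m : ℕ)
    (G : (Node → Fin b → Bool) → X → Y → Bool) (hdet : ∀ h, DetComputes (G h) k)
    (S : X → Y → Finset (Node × Node)) (hS : ∀ x y, (S x y).card ≤ m) (hne : ∀ x y, ∀ w ∈ S x y, w.1 ≠ w.2)
    (hgood : ∀ h x y, (∀ w ∈ S x y, h w.1 ≠ h w.2) → G h x y = F x y) (hb : 3 * m ≤ 2 ^ b) :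
    RandComputes F k := by
  classical
  have hcard : Fintype.card (Fin (Fintype.card Node * b) → Bool) =
      Fintype.card (Node → Fin b → Bool) := by
    simp only [Fintype.card_fun, Fintype.card_bool, Fintype.card_fin]
    rw [mul_comm, pow_mul]
  have hcard2 : Fintype.card (Node → Fin b → Bool) = 2 ^ (Fintype.card Node * b) := by
    rw [← hcard]
    simp only [Fintype.card_fun, Fintype.card_bool, Fintype.card_fin]
  let σ : (Fin (Fintype.card Node * b) → Bool) ≃ (Node → Fin b → Bool) := Fintype.equivOfCardEq hcard
  choose P hP1 hP2 using hdet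
  refine ⟨Fintype.card Node * b, fun ω => P (σ ω), fun ω => hP1 (σ ω), fun x y => ?_⟩
  -- the bad hash functions
  set B : Finset (Node → Fin b → Bool) :=
    univ.filter fun h => ∃ w ∈ S x y, h w.1 = h w.2 with hB
  have hBsub : B ⊆ (S x y).biUnion
      (fun w => univ.filter fun h : Node → Fin b → Bool => h w.1 = h w.2) := by
    intro h hh
    rw [hB, Finset.mem_filter] at hh
    obtain ⟨w, hw, he⟩ := hh.2
    exact Finset.mem_biUnion.2 ⟨w, hw, Finset.mem_filter.2 ⟨Finset.mem_univ _, he⟩⟩
  have hBcard : B.card * 2 ^ b ≤ m * 2 ^ (Fintype.card Node * b) := by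
    have h1 : B.card ≤ ∑ w ∈ S x y, (univ.filter fun h : Node → Fin b → Bool => h w.1 = h w.2).card :=
      (Finset.card_le_card hBsub).trans Finset.card_biUnion_le
    calc B.card * 2 ^ b
        ≤ (∑ w ∈ S x y, (univ.filter fun h : Node → Fin b → Bool => h w.1 = h w.2).card) * 2 ^ b :=
          Nat.mul_le_mul_right _ h1
      _ = ∑ w ∈ S x y, (univ.filter fun h : Node → Fin b → Bool => h w.1 = h w.2).card * 2 ^ b :=
          Finset.sum_mul _ _ _
      _ = ∑ w ∈ S x y, 2 ^ (Fintype.card Node * b) := by
          refine Finset.sum_congr rfl fun w hw => ?_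
          rw [card_collide b w.1 w.2 (hne x y w hw), hcard2]
      _ = (S x y).card * 2 ^ (Fintype.card Node * b) := by rw [Finset.sum_const, smul_eq_mul]
      _ ≤ m * 2 ^ (Fintype.card Node * b) := Nat.mul_le_mul_right _ (hS x y)
  have hB3 : 3 * B.card ≤ 2 ^ (Fintype.card Node * b) := by
    have h2 : 3 * B.card * 2 ^ b ≤ 2 ^ (Fintype.card Node * b) * 2 ^ b := by
      calc 3 * B.card * 2 ^ b = 3 * (B.card * 2 ^ b) := by ring
        _ ≤ 3 * (m * 2 ^ (Fintype.card Node * b)) := Nat.mul_le_mul_left _ hBcard
        _ = (3 * m) * 2 ^ (Fintype.card Node * b) := by ring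
        _ ≤ 2 ^ b * 2 ^ (Fintype.card Node * b) := Nat.mul_le_mul_right _ hb
        _ = 2 ^ (Fintype.card Node * b) * 2 ^ b := by ring
    exact Nat.le_of_mul_le_mul_right h2 (by positivity)
  -- good coins
  have hgoodcard : Bᶜ.card ≤ (univ.filter fun ω => (P (σ ω)).run x y = F x y).card := by
    rw [← Finset.card_map σ.symm.toEmbedding]
    refine Finset.card_le_card fun ω hω => ?_
    rw [Finset.mem_map] at hω
    obtain ⟨h, hh, rfl⟩ := hω
    rw [Finset.mem_filter]
    refine ⟨Finset.mem_univ _, ?_⟩
    have hh' : h ∉ B := Finset.mem_compl.1 hh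
    have e : σ (σ.symm.toEmbedding h) = h := σ.apply_symm_apply h
    rw [e, hP2]
    refine hgood h x y fun w hw he => hh' ?_
    rw [hB, Finset.mem_filter]
    exact ⟨Finset.mem_univ _, w, hw, he⟩
  have hcompl : Bᶜ.card = 2 ^ (Fintype.card Node * b) - B.card := by
    rw [Finset.card_compl, hcard2]
  rw [hcompl] at hgoodcard
  have key : 2 * 2 ^ (Fintype.card Node * b) ≤
      3 * (univ.filter fun ω => (P (σ ω)).run x y = F x y).card := by
    omega
  exact key

end Pool.Agent.H.MP_dd1c2e_lc.Alt
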