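import Pool.Agent.H.MP_dd1c2e_lc.alt.Exact
import Pool.Agent.H.MP_dd1c2e_lc.alt.Hash

/-!
# The final answer
-/

namespace Pool.Agent.H.MP_dd1c2e_lc.Alt

open Finset

/-- The final answer of Bob, for the position `lo` and the messages `v`, `w` (the hashes of Alice's nodes in the positions
`lo` and `lo + 1`): if `w` is the hash of an exceptional node `u ∈ E lo` answer `g lo u`; otherwise, if `v` is the hash of
a node `u ∈ T lo` answer `c lo u`; otherwise answer `false`. -/
noncomputable def fin {Node : Type} {b : ℕ} (h : Node → Fin b → Bool) (T E : ℕ → Finset Node) (g c : ℕ → Node → Bool)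
    (lo : ℕ) (v w : Fin b → Bool) : Bool := by
  classical
  exact if hw : ∃ u ∈ E lo, h u = w then g lo (Classical.choose hw)
    else if hv : ∃ u ∈ T lo, h u = v then c lo (Classical.choose hv) else false

/-- If `h` separates `w` from all other nodes of `E` and `v` from all other nodes of `T`, and `v ∈ T lo`, the answer is the
right one.

Proof. If `w ∈ E lo` the first condition holds and the chosen `u ∈ E lo` has `h u = h w`, so `u = w` (otherwise `u ≠ w` is
separated). If `w ∉ E lo` the first condition fails (a `u ∈ E lo` with `h u = h w` has `u ≠ w`). Then the second one holds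
with `u = v`, and the chosen `u` is `v` for the same reason. -/
theorem fin_spec {Node : Type} {b : ℕ} (h : Node → Fin b → Bool) (T E : ℕ → Finset Node) (g c : ℕ → Node → Bool)
    (lo : ℕ) (v w : Node) (hv : v ∈ T lo) (hE : ∀ u ∈ E lo, u ≠ w → h u ≠ h w) (hT : ∀ u ∈ T lo, u ≠ v → h u ≠ h v) :
    (w ∈ E lo → fin h T E g c lo (h v) (h w) = g lo w) ∧ (w ∉ E lo → fin h T E g c lo (h v) (h w) = c lo v) := by
  classical
  constructor
  · intro hw
    have h1 : ∃ u ∈ E lo, h u = h w := ⟨w, hw, rfl⟩
    have h2 := Classical.choose_spec h1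
    have h3 : Classical.choose h1 = w := by
      by_contra hne
      exact hE _ h2.1 hne h2.2
    unfold fin
    rw [dif_pos h1, h3]
  · intro hw
    have h1 : ¬ ∃ u ∈ E lo, h u = h w := by
      rintro ⟨u, hu, he⟩
      have hne : u ≠ w := by
        rintro rfl
        exact hw hu
      exact hE u hu hne he
    have h4 : ∃ u ∈ T lo, h u = h v := ⟨v, hv, rfl⟩
    have h2 := Classical.choose_spec h4
    have h3 : Classical.choose h4 = v := by
      by_contra hne
      exact hT _ h2.1 hne h2.2
    unfold fin
    rw [dif_neg h1, dif_pos h4, h3]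

end Pool.Agent.H.MP_dd1c2e_lc.Alt
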