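import Pool.Agent.H.MP_dd1c2e_lc.alt.D

/-!
# Laminar families are families of intervals of a linear order
-/

namespace Pool.Agent.H.MP_dd1c2e_lc.Alt

open Finset

/-- A laminar family of subsets of the finite set `A`: there is a list of the elements of `A` in which every member of the
family is a block of consecutive entries.

Proof. Strong induction on `A.card`. If every member of `𝒮` is empty or equal to `A`, take any list (`A.toList`) with
blocks `[]` and everything. Otherwise let `S ∈ 𝒮` be a member with `S ≠ ∅`, `S ≠ A` of maximal cardinality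
(`Finset.exists_max_image`). Every `R ∈ 𝒮` is contained in `S`, or disjoint from `S`, or equal to `A`: if `S ⊆ R` and
`R ≠ A` then `R ≠ ∅`, so `R.card ≤ S.card` and `R = S`. Apply the induction hypothesis to `S` with the members contained in
`S` and to `A \ S` with the members disjoint from `S` (both sets are smaller than `A`; both families are laminar) and
concatenate the two lists: a block `l₁ ++ l₂ ++ l₃` of the first list gives the block `l₁ ++ l₂ ++ (l₃ ++ l')`, and
similarly for the second one; `A` is the whole list. -/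
theorem laminar_list {X : Type} [DecidableEq X] : ∀ (n : ℕ) (A : Finset X) (𝒮 : Finset (Finset X)), A.card = n →
    (∀ S ∈ 𝒮, S ⊆ A) → (∀ S ∈ 𝒮, ∀ T ∈ 𝒮, S ⊆ T ∨ T ⊆ S ∨ Disjoint S T) →
    ∃ l : List X, l.Nodup ∧ l.toFinset = A ∧ ∀ S ∈ 𝒮, ∃ l₁ l₂ l₃ : List X, l = l₁ ++ l₂ ++ l₃ ∧ l₂.toFinset = S := by
  intro n
  induction n using Nat.strong_induction_on with
  | _ n ih =>
    intro A 𝒮 hn hA hL
    by_cases hall : ∀ S ∈ 𝒮, S = ∅ ∨ S = A
    · refine ⟨A.toList, A.nodup_toList, A.toList_toFinset, fun S hS => ?_⟩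
      rcases hall S hS with h | h
      · exact ⟨[], [], A.toList, rfl, by rw [h]; rfl⟩
      · exact ⟨[], A.toList, [], by simp, by rw [h]; exact A.toList_toFinset⟩
    · have hex : ∃ S₀ ∈ 𝒮, S₀ ≠ ∅ ∧ S₀ ≠ A := by
        by_contra hcon
        apply hall
        intro S hS
        by_contra h
        rw [not_or] at h
        exact hcon ⟨S, hS, h.1, h.2⟩
      obtain ⟨S₀, hS₀, h1, h2⟩ := hex
      obtain ⟨S, hS', hmax⟩ := Finset.exists_max_image (𝒮.filter fun S => S ≠ ∅ ∧ S ≠ A) Finset.card
        ⟨S₀, mem_filter.2 ⟨hS₀, h1, h2⟩⟩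
      obtain ⟨hS, hSe, hSn⟩ := mem_filter.1 hS'
      have key : ∀ R ∈ 𝒮, R ⊆ S ∨ Disjoint R S ∨ R = A := by
        intro R hR
        by_cases hRA : R = A
        · exact Or.inr (Or.inr hRA)
        · rcases hL S hS R hR with h | h | h
          · have hR0 : R ≠ ∅ := fun h0 => hSe (subset_empty.1 (h0 ▸ h))
            have h3 := hmax R (mem_filter.2 ⟨hR, hR0, hRA⟩)
            exact Or.inl (eq_of_subset_of_card_le h h3).ge
          · exact Or.inl h
          · exact Or.inr (Or.inl h.symm)
      have hSA : S ⊆ A := hA S hS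
      have hlt1 : S.card < n := hn ▸ card_lt_card (ssubset_of_subset_of_ne hSA hSn)
      have hpos : 0 < S.card := card_pos.2 (nonempty_iff_ne_empty.2 hSe)
      have hlt2 : (A \ S).card < n := by
        rw [card_sdiff_of_subset hSA]
        omega
      obtain ⟨l, hl1, hl2, hl3⟩ := ih S.card hlt1 S (𝒮.filter fun R => R ⊆ S) rfl
        (fun R hR => (mem_filter.1 hR).2)
        (fun R hR T hT => hL R (mem_filter.1 hR).1 T (mem_filter.1 hT).1)
      obtain ⟨l', hl1', hl2', hl3'⟩ := ih (A \ S).card hlt2 (A \ S)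
        (𝒮.filter fun R => Disjoint R S) rfl
        (fun R hR => subset_sdiff.2 ⟨hA R (mem_filter.1 hR).1, (mem_filter.1 hR).2⟩)
        (fun R hR T hT => hL R (mem_filter.1 hR).1 T (mem_filter.1 hT).1)
      have htot : (l ++ l').toFinset = A := by
        rw [List.toFinset_append, hl2, hl2', union_sdiff_of_subset hSA]
      refine ⟨l ++ l', List.nodup_append'.2 ⟨hl1, hl1', ?_⟩, htot, ?_⟩
      · intro x hx hx'
        have h3 : x ∈ S := hl2 ▸ List.mem_toFinset.2 hx
        have h4 : x ∈ A \ S := hl2' ▸ List.mem_toFinset.2 hx'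
        exact (mem_sdiff.1 h4).2 h3
      · intro R hR
        rcases key R hR with h | h | h
        · obtain ⟨a, b, c, h3, h4⟩ := hl3 R (mem_filter.2 ⟨hR, h⟩)
          exact ⟨a, b, c ++ l', by rw [h3, List.append_assoc _ c l'], h4⟩
        · obtain ⟨a, b, c, h3, h4⟩ := hl3' R (mem_filter.2 ⟨hR, h⟩)
          exact ⟨l ++ a, b, c, by rw [h3]; simp only [List.append_assoc], h4⟩
        · exact ⟨[], l ++ l', [], by simp, by rw [h]; exact htot⟩

end Pool.Agent.H.MP_dd1c2e_lc.Alt
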