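import Pool.Agent.H.MP_dd1c2e_lc.alt.Lam

/-!
# Laminar families are families of intervals of a linear order: enumeration
-/

namespace Pool.Agent.H.MP_dd1c2e_lc.Alt

open Finset

theorem lam2_key {X : Type} (l l₁ l₂ l₃ : List X) (hnd : l.Nodup) (hl : l = l₁ ++ l₂ ++ l₃) (i : ℕ)
    (hi : i < l.length) : l[i] ∈ l₂ ↔ l₁.length ≤ i ∧ i < l₁.length + l₂.length := by
  have key : ∀ k (hk : k < l₂.length), ∃ h : l₁.length + k < l.length, l[l₁.length + k] = l₂[k] := by
    intro k hk
    subst hl
    have h : l₁.length + k < (l₁ ++ l₂ ++ l₃).length := by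
      rw [List.length_append, List.length_append]
      omega
    refine ⟨h, ?_⟩
    rw [List.getElem_append_left (by rw [List.length_append]; omega),
      List.getElem_append_right (by omega)]
    congr 1
    omega
  constructor
  · intro h
    obtain ⟨k, hk, he⟩ := List.getElem_of_mem h
    obtain ⟨hlt, hk2⟩ := key k hk
    have h1 : i = l₁.length + k := by
      have h2 : l[i] = l[l₁.length + k] := by rw [hk2, he]
      exact (List.Nodup.getElem_inj_iff hnd).1 h2
    omega
  · rintro ⟨h1, h2⟩
    obtain ⟨hlt, hk2⟩ := key (i - l₁.length) (by omega)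
    have h3 : l₁.length + (i - l₁.length) = i := by omega
    have h4 : l[i] = l₂[i - l₁.length]'(by omega) := by
      rw [← hk2]
      congr 1
      omega
    rw [h4]
    exact List.getElem_mem _

/-- The same with an enumeration of a finite type.

Proof. `laminar_list` with `A = univ` gives a list `l` without repetitions containing all elements; put `N = l.length` and
`e i = l.get i` (a bijection; `List.Nodup.getEquiv` or `Equiv.ofBijective`). If `l = l₁ ++ l₂ ++ l₃` and
`l₂.toFinset = S`, then `e i ∈ S` if and only if `l₁.length ≤ i < l₁.length + l₂.length` (`List.getElem_append`, and no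
repetitions for the direction from left to right). -/
theorem laminar_order {X : Type} [Fintype X] [DecidableEq X] (𝒮 : Finset (Finset X))
    (h : ∀ S ∈ 𝒮, ∀ T ∈ 𝒮, S ⊆ T ∨ T ⊆ S ∨ Disjoint S T) :
    ∃ (N : ℕ) (e : Fin N ≃ X), ∀ S ∈ 𝒮, ∃ a b : ℕ, ∀ i : Fin N, e i ∈ S ↔ a ≤ i.1 ∧ i.1 < b := by
  obtain ⟨l, hnd, hl, hS⟩ := laminar_list (univ : Finset X).card univ 𝒮 rfl
    (fun S _ => Finset.subset_univ S) h
  have hmem : ∀ x, x ∈ l := by
    intro x
    rw [← List.mem_toFinset, hl]
    exact Finset.mem_univ x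
  refine ⟨l.length, List.Nodup.getEquivOfForallMemList l hnd hmem, ?_⟩
  intro S hSm
  obtain ⟨l₁, l₂, l₃, h1, h2⟩ := hS S hSm
  refine ⟨l₁.length, l₁.length + l₂.length, fun i => ?_⟩
  have h3 : (List.Nodup.getEquivOfForallMemList l hnd hmem) i = l[i.1] := rfl
  rw [h3, ← h2, List.mem_toFinset]
  exact lam2_key l l₁ l₂ l₃ hnd h1 i.1 i.2

end Pool.Agent.H.MP_dd1c2e_lc.Alt
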