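import Pool.Agent.H.MP_dd1c2e_lc.alt.Cs

/-!
# Nested partitions of a segment of `ℕ` by mistake tree depth

`f : ℕ → Y → Bool` is a matrix with rows `0, 1, 2, ...`. For a number `L`, `st f L j x` is the first element of the piece
of the `j`-th partition that contains `x`. The partitions get finer; the pieces of the `j`-th partition do not carry
mistake trees of depth `L + 1 - j`, and they are maximal with this property (greedily from the left, inside the pieces of
the previous partition).
-/

namespace Pool.Agent.H.MP_dd1c2e_lc.Alt

open Finset

/-- The first element of the piece of the `j`-th partition that contains `x`. -/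
noncomputable def st {Y : Type} (f : ℕ → Y → Bool) (L : ℕ) : ℕ → ℕ → ℕ
  | 0, _ => 0
  | j + 1, x => cs f (L - j) (st f L j x) x

theorem st_le {Y : Type} (f : ℕ → Y → Bool) (L j x : ℕ) : st f L j x ≤ x := by
  induction j with
  | zero => exact Nat.zero_le x
  | succ j ih =>
    show cs f (L - j) (st f L j x) x ≤ x
    exact (cs_mem f (L - j) (st f L j x) x ih).2

theorem st_mono {Y : Type} (f : ℕ → Y → Bool) (L j x : ℕ) : st f L j x ≤ st f L (j + 1) x := by
  show st f L j x ≤ cs f (L - j) (st f L j x) x
  exact (cs_mem f (L - j) (st f L j x) x (st_le f L j x)).1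

/-- Between the first element of the piece and `x` the piece is the same.

Proof. Induction on `j`, for all `x`, `z`. `j = 0` is trivial. `j + 1`: from `st j x ≤ st (j + 1) x ≤ z ≤ x` we get
`st j z = st j x` (induction hypothesis), and then `cs_between` with `s = st j x`. -/
theorem st_between {Y : Type} (f : ℕ → Y → Bool) (L j x z : ℕ) (h1 : st f L j x ≤ z) (h2 : z ≤ x) :
    st f L j z = st f L j x := by
  induction j generalizing x z with
  | zero => rfl
  | succ j ih =>
    have h3 : st f L j x ≤ st f L (j + 1) x := st_mono f L j x
    have h4 : st f L j z = st f L j x := ih x z (h3.trans h1) h2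
    show cs f (L - j) (st f L j z) z = cs f (L - j) (st f L j x) x
    rw [h4]
    exact cs_between f (L - j) (st f L j x) x z (st_le f L j x) h1 h2

/-- Finer pieces: if `x`, `z` are in the same piece of the partition `j + 1`, they are in the same piece of the partition
`j`. (With `c = st (j + 1) x = st (j + 1) z`: `st j x ≤ c ≤ x` gives `st j c = st j x`, in the same way
`st j c = st j z`; `st_between`, `st_mono`, `st_le`.) -/
theorem st_coarse {Y : Type} (f : ℕ → Y → Bool) (L j x z : ℕ) (h : st f L (j + 1) x = st f L (j + 1) z) :
    st f L j x = st f L j z := by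
  have h1 : st f L j (st f L (j + 1) x) = st f L j x :=
    st_between f L j x (st f L (j + 1) x) (st_mono f L j x) (st_le f L (j + 1) x)
  have h2 : st f L j (st f L (j + 1) z) = st f L j z :=
    st_between f L j z (st f L (j + 1) z) (st_mono f L j z) (st_le f L (j + 1) z)
  rw [← h1, ← h2, h]

end Pool.Agent.H.MP_dd1c2e_lc.Alt
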