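import Pool.Agent.H.MP_dd1c2e_lc.alt.D
import Pool.Agent.H.MP_dd1c2e_lc.G2

/-!
# The perceptron bound for mistake trees
-/

namespace Pool.Agent.H.MP_dd1c2e_lc.Alt

open Finset

/-- The perceptron walk along a mistake tree. Let `U x`, `V y` be real vectors with `(∑ k, U x k * V y k) ≥ 1/6` if
`F x y = true` and `≤ -1/6` if `F x y = false`, and `∑ k, V y k ^ 2 ≤ G` for all `y`. If `A` carries a mistake tree of
depth `l`, then for every vector `w` there are a row `x ∈ A` and a vector `w'` with `‖w'‖² ≤ ‖w‖² + l G` and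
`⟨U x, w'⟩ ≥ ⟨U x, w⟩ + l / 6`.

Proof. Induction on `l` (for all `A`, `w`). `l = 0`: take any `x ∈ A` and `w' = w`. `l + 1`: let `y` be the root column of
the tree. If `⟨w, V y⟩ ≤ 0` put `w₁ = w + V y` and go to `{x ∈ A | F x y = true}`; otherwise put `w₁ = w - V y` and go to
`{x ∈ A | F x y = false}`. In both cases `‖w₁‖² = ‖w‖² ± 2⟨w, V y⟩ + ‖V y‖² ≤ ‖w‖² + G`. The induction hypothesis gives
`x` in the smaller set and `w'` with `‖w'‖² ≤ ‖w₁‖² + l G ≤ ‖w‖² + (l + 1) G` and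
`⟨U x, w'⟩ ≥ ⟨U x, w₁⟩ + l / 6 = ⟨U x, w⟩ ± ⟨U x, V y⟩ + l / 6 ≥ ⟨U x, w⟩ + 1 / 6 + l / 6`. -/
theorem perc_walk {X Y ι : Type} [Fintype ι] (F : X → Y → Bool) (U : X → ι → ℝ) (V : Y → ι → ℝ) (G : ℝ)
    (hV : ∀ y, ∑ k, V y k ^ 2 ≤ G)
    (h1 : ∀ x y, F x y = true → 1 / 6 ≤ ∑ k, U x k * V y k)
    (h0 : ∀ x y, F x y = false → ∑ k, U x k * V y k ≤ -(1 / 6)) :
    ∀ (l : ℕ) (A : Set X) (w : ι → ℝ), Lit F l A →
      ∃ x ∈ A, ∃ w' : ι → ℝ, ∑ k, w' k ^ 2 ≤ ∑ k, w k ^ 2 + l * G ∧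
        ∑ k, U x k * w k + l / 6 ≤ ∑ k, U x k * w' k := by
  intro l
  induction l with
  | zero =>
    rintro A w ⟨x, hx⟩
    refine ⟨x, hx, w, ?_, ?_⟩
    · simp
    · simp
  | succ l ih =>
    rintro A w ⟨y, ht, hf⟩
    have hsq1 : ∑ k, (w k + V y k) ^ 2 =
        ∑ k, w k ^ 2 + 2 * ∑ k, w k * V y k + ∑ k, V y k ^ 2 := by
      rw [Finset.mul_sum, ← Finset.sum_add_distrib, ← Finset.sum_add_distrib]
      exact Finset.sum_congr rfl fun k _ => by ring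
    have hsq2 : ∑ k, (w k - V y k) ^ 2 =
        ∑ k, w k ^ 2 - 2 * ∑ k, w k * V y k + ∑ k, V y k ^ 2 := by
      rw [Finset.mul_sum, ← Finset.sum_sub_distrib, ← Finset.sum_add_distrib]
      exact Finset.sum_congr rfl fun k _ => by ring
    have hVy := hV y
    rcases le_total (∑ k, w k * V y k) 0 with hw | hw
    · obtain ⟨x, ⟨hxA, hxF⟩, w', hw1, hw2⟩ := ih _ (fun k => w k + V y k) ht
      refine ⟨x, hxA, w', ?_, ?_⟩
      · rw [hsq1] at hw1
        push_cast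
        linarith
      · have e : ∑ k, U x k * (w k + V y k) = ∑ k, U x k * w k + ∑ k, U x k * V y k := by
          rw [← Finset.sum_add_distrib]
          exact Finset.sum_congr rfl fun k _ => by ring
        rw [e] at hw2
        have h3 := h1 x y hxF
        push_cast
        linarith
    · obtain ⟨x, ⟨hxA, hxF⟩, w', hw1, hw2⟩ := ih _ (fun k => w k - V y k) hf
      refine ⟨x, hxA, w', ?_, ?_⟩
      · rw [hsq2] at hw1
        push_cast
        linarith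
      · have e : ∑ k, U x k * (w k - V y k) = ∑ k, U x k * w k - ∑ k, U x k * V y k := by
          rw [← Finset.sum_sub_distrib]
          exact Finset.sum_congr rfl fun k _ => by ring
        rw [e] at hw2
        have h3 := h0 x y hxF
        push_cast
        linarith

/-- Hence `l ≤ 36 g G` if all `U x` have squared length at most `g` and all `V y` at most `G`.

Proof. `perc_walk` with `w = 0`: `l / 6 ≤ ⟨U x, w'⟩` and `‖w'‖² ≤ l G`. By Cauchy-Schwarz (`Finset.sum_mul_sq_le_sq_mul_sq`)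
`l² / 36 ≤ ‖U x‖² ‖w'‖² ≤ g l G`. If `l = 0` the claim is `0 ≤ 36 g G` (there is a row `x` and a column? only use `0 ≤ g`,
`0 ≤ G`, which are hypotheses); otherwise divide by `l`. -/
theorem perc_bound {X Y ι : Type} [Fintype ι] (F : X → Y → Bool) (U : X → ι → ℝ) (V : Y → ι → ℝ) (g G : ℝ)
    (hg : 0 ≤ g) (hG : 0 ≤ G) (hU : ∀ x, ∑ k, U x k ^ 2 ≤ g) (hV : ∀ y, ∑ k, V y k ^ 2 ≤ G)
    (h1 : ∀ x y, F x y = true → 1 / 6 ≤ ∑ k, U x k * V y k)
    (h0 : ∀ x y, F x y = false → ∑ k, U x k * V y k ≤ -(1 / 6)) (l : ℕ) (A : Set X) (h : Lit F l A) :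
    (l : ℝ) ≤ 36 * g * G := by
  obtain ⟨x, -, w', hw1, hw2⟩ := perc_walk F U V G hV h1 h0 l A (fun _ => 0) h
  have hl : (0 : ℝ) ≤ l := Nat.cast_nonneg l
  have e1 : ∑ k : ι, (0 : ℝ) ^ 2 = 0 := by simp
  have e2 : ∑ k, U x k * (0 : ℝ) = 0 := by simp
  simp only [e1, e2, zero_add] at hw1 hw2
  have hcs := Finset.sum_mul_sq_le_sq_mul_sq Finset.univ (fun k => U x k) w'
  have hUx := hU x
  have hU0 : 0 ≤ ∑ k, U x k ^ 2 := Finset.sum_nonneg fun k _ => sq_nonneg _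
  have h3 : ((l : ℝ) / 6) ^ 2 ≤ (∑ k, U x k * w' k) ^ 2 :=
    pow_le_pow_left₀ (by positivity) hw2 2
  have h4 : (∑ k, U x k ^ 2) * ∑ k, w' k ^ 2 ≤ g * (l * G) :=
    mul_le_mul hUx hw1 (Finset.sum_nonneg fun k _ => sq_nonneg _) hg
  rcases hl.eq_or_lt with h0' | h0'
  · rw [← h0']
    positivity
  · have h5 : ((l : ℝ) / 6) ^ 2 ≤ g * (l * G) := h3.trans (hcs.trans h4)
    have h6 : (l : ℝ) * l ≤ (36 * g * G) * l := by nlinarith
    exact le_of_mul_le_mul_right h6 h0'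

end Pool.Agent.H.MP_dd1c2e_lc.Alt
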