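import Pool.Agent.H.MP_dd1c2e_lc.alt.PercA
import Pool.Agent.H.MP_dd1c2e_lc.QAcc

/-!
# Quantum communication and mistake trees
-/

namespace Pool.Agent.H.MP_dd1c2e_lc.Alt

open Finset

/-- From a complex factorisation of a real matrix `P` with vectors of squared length `≤ g` to a real factorisation of
`P - 1/2` with vectors of squared length `≤ g + 1`.

Proof. Let `P x y = ∑ k, u x k * w y k` with complex `u`, `w` (`G2`). Take the index type `ι ⊕ ι ⊕ Unit` and
`U x = (Re u x k, Im u x k, 1)`, `V y = (Re w y k, - Im w y k, - 1/2)`. Then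
`⟨U x, V y⟩ = ∑ k, (Re u Re w - Im u Im w) - 1/2 = Re (∑ k, u x k * w y k) - 1/2 = P x y - 1/2`, and
`‖U x‖² = ∑ k, ‖u x k‖² + 1 ≤ g + 1`, `‖V y‖² ≤ g + 1/4 ≤ g + 1` (`Complex.sq_norm`, `Complex.normSq_apply`). -/
theorem real_factor {X Y : Type} (P : X → Y → ℝ) (g : ℝ) (h : G2 (fun x y => (P x y : ℂ)) g) :
    ∃ (ι : Type) (_ : Fintype ι) (U : X → ι → ℝ) (V : Y → ι → ℝ), (∀ x y, ∑ k, U x k * V y k = P x y - 1 / 2) ∧
      (∀ x, ∑ k, U x k ^ 2 ≤ g + 1) ∧ (∀ y, ∑ k, V y k ^ 2 ≤ g + 1) := by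
  obtain ⟨ι, hι, u, w, h1, h2, h3⟩ := h
  refine ⟨ι ⊕ (ι ⊕ Unit), inferInstance,
    fun x => Sum.elim (fun k => (u x k).re) (Sum.elim (fun k => (u x k).im) (fun _ => 1)),
    fun y => Sum.elim (fun k => (w y k).re) (Sum.elim (fun k => -(w y k).im) (fun _ => -(1 / 2))),
    fun x y => ?_, fun x => ?_, fun y => ?_⟩
  · have e : P x y = ∑ k, ((u x k).re * (w y k).re - (u x k).im * (w y k).im) := by
      have e1 := congrArg Complex.re (h1 x y)
      rw [Complex.ofReal_re, Complex.re_sum] at e1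
      rw [e1]
      exact Finset.sum_congr rfl fun k _ => Complex.mul_re _ _
    rw [Fintype.sum_sum_type, Fintype.sum_sum_type, e, Finset.sum_sub_distrib]
    simp only [Sum.elim_inl, Sum.elim_inr, Finset.univ_unique, Finset.sum_singleton, mul_neg,
      Finset.sum_neg_distrib]
    ring
  · have e : ∑ k, ‖u x k‖ ^ 2 = ∑ k, (u x k).re ^ 2 + ∑ k, (u x k).im ^ 2 := by
      rw [← Finset.sum_add_distrib]
      refine Finset.sum_congr rfl fun k _ => ?_
      rw [Complex.sq_norm, Complex.normSq_apply]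
      ring
    have h4 := h2 x
    rw [e] at h4
    rw [Fintype.sum_sum_type, Fintype.sum_sum_type]
    simp only [Sum.elim_inl, Sum.elim_inr, Finset.univ_unique, Finset.sum_singleton]
    linarith
  · have e : ∑ k, ‖w y k‖ ^ 2 = ∑ k, (w y k).re ^ 2 + ∑ k, (w y k).im ^ 2 := by
      rw [← Finset.sum_add_distrib]
      refine Finset.sum_congr rfl fun k _ => ?_
      rw [Complex.sq_norm, Complex.normSq_apply]
      ring
    have h4 := h3 y
    rw [e] at h4
    rw [Fintype.sum_sum_type, Fintype.sum_sum_type]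
    simp only [Sum.elim_inl, Sum.elim_inr, Finset.univ_unique, Finset.sum_singleton, neg_sq]
    linarith

/-- A quantum protocol with `q` qubits and entanglement forces all mistake trees to have depth at most `36 (4^q + 1)²`.

Proof. `quantum_G2 h` gives `P` with `γ₂(P) ≤ 4^q`, `P x y ≥ 2/3` if `F x y = true` and `≤ 1/3` if `F x y = false`.
`real_factor` and `perc_bound` with `g = G = 4^q + 1`: `l ≤ 36 (4^q + 1) (4^q + 1)`; cast to `ℕ` (`exact_mod_cast`). -/
theorem lit_quantum {X Y : Type} (F : X → Y → Bool) (q l : ℕ) (h : QuantumComputes F q) (hl : Lit F l Set.univ) :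
    l ≤ 36 * (4 ^ q + 1) ^ 2 := by
  obtain ⟨P, hP, h01, ht, hf⟩ := quantum_G2 h
  obtain ⟨ι, hι, U, V, hUV, hU, hV⟩ := real_factor P _ hP
  have hg : (0 : ℝ) ≤ 4 ^ q + 1 := by positivity
  have h2 := perc_bound F U V ((4 : ℝ) ^ q + 1) ((4 : ℝ) ^ q + 1) hg hg hU hV
    (fun x y hxy => by
      rw [hUV x y]
      have := ht x y hxy
      linarith)
    (fun x y hxy => by
      rw [hUV x y]
      have := hf x y hxy
      linarith) l Set.univ hl
  have h3 : (l : ℝ) ≤ ((36 * (4 ^ q + 1) ^ 2 : ℕ) : ℝ) := by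
    push_cast
    linarith
  exact_mod_cast h3

end Pool.Agent.H.MP_dd1c2e_lc.Alt
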