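import Pool.Agent.H.MP_dd1c2e_lc.alt.Fsp

/-!
# The randomized protocol: where does a path leave a set of nodes?
-/

namespace Pool.Agent.H.MP_dd1c2e_lc.Alt

open Finset

/-- The randomized protocol. Alice has a path `p x 0, p x 1, ...` of nodes, Bob has the sets `T y j` of active nodes.

Proof. `rand_of_hash` with the number of pairs `(M + 3) * K`. For the coins `h` let
`G h x y = fin' y lo (h (p x lo)) (h (p x (lo + 1)))` with `lo = srch h (p x) (T y) M 0` and
`fin' y lo v w = e` if the second alternative of `root y` holds with the constant `e` (choice, `if`), and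
`fin h (T y) (E y) (g y) (c y) lo v w` otherwise. The cost is
`M (b + 1) + (2 b + 1) ≤ (M + 2) (b + 1)` by `det_srch`. If the second alternative of `root y` holds, `S x y = ∅` and
`G h x y = e = F x y`. Otherwise the first one holds; let `j = ex (p x) (T y) M 0`, and let `S x y` be the union of
`prs (p x) (T y) M 0`, of the pairs `(u, p x (j + 1))` with `u ∈ E y j`, `u ≠ p x (j + 1)`, and of the pairs
`(u, p x j)` with `u ∈ T y j`, `u ≠ p x j`; it has at most `M K + 2 K + K` elements (`card_prs`). If `h` separates all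
pairs, then `srch h (p x) (T y) M 0 = j` (`srch_eq_ex`), `p x j ∈ T y j` and `p x (j + 1) ∉ T y (j + 1)` (`ex_spec` with
`lo = 0`, using `root` and `top`), and `fin_spec` with `v = p x j`, `w = p x (j + 1)` gives the value in `val`. -/
theorem rand_proto {X Y Node : Type} [Fintype Node] (F : X → Y → Bool) (M K b : ℕ) (p : X → ℕ → Node)
    (T E : Y → ℕ → Finset Node) (g c : Y → ℕ → Node → Bool)
    (hT : ∀ y j, (T y j).card ≤ K) (hE : ∀ y j, (E y j).card ≤ 2 * K)
    (top : ∀ x y, p x (2 ^ M) ∉ T y (2 ^ M))
    (val : ∀ x y j, p x j ∈ T y j → p x (j + 1) ∉ T y (j + 1) →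
      (p x (j + 1) ∈ E y j → F x y = g y j (p x (j + 1))) ∧ (p x (j + 1) ∉ E y j → F x y = c y j (p x j)))
    (root : ∀ y, (∀ x, p x 0 ∈ T y 0) ∨ ∃ e, ∀ x, F x y = e)
    (hb : 3 * ((M + 3) * K) ≤ 2 ^ b) : RandComputes F ((M + 2) * (b + 1)) := by
  classical
  -- the final answer
  let fin' : (Node → Fin b → Bool) → Y → ℕ → (Fin b → Bool) → (Fin b → Bool) → Bool :=
    fun h y lo v w => if hy : ∃ e, ∀ x, F x y = e then Classical.choose hy
      else fin h (T y) (E y) (g y) (c y) lo v w
  -- the pairs
  let S : X → Y → Finset (Node × Node) := fun x y =>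
    if ∃ e, ∀ x, F x y = e then ∅ else
      prs (p x) (T y) M 0 ∪
        (((E y (ex (p x) (T y) M 0)).filter fun u => u ≠ p x (ex (p x) (T y) M 0 + 1)).image
          (fun u => (u, p x (ex (p x) (T y) M 0 + 1))) ∪
        ((T y (ex (p x) (T y) M 0)).filter fun u => u ≠ p x (ex (p x) (T y) M 0)).image
          (fun u => (u, p x (ex (p x) (T y) M 0))))
  refine rand_of_hash F b ((M + 2) * (b + 1)) ((M + 3) * K)
    (fun h x y => fin' h y (srch h (p x) (T y) M 0) (h (p x (srch h (p x) (T y) M 0)))
      (h (p x (srch h (p x) (T y) M 0 + 1)))) (fun h => ?_) S (fun x y => ?_) (fun x y => ?_)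
      (fun h x y hsep => ?_) hb
  · refine (det_srch h M X Y p T (fin' h) 0).mono ?_
    ring_nf
    omega
  · show (if ∃ e, ∀ x, F x y = e then (∅ : Finset (Node × Node)) else _).card ≤ _
    split_ifs with hy
    · simp
    · have h1 := card_prs (p x) (T y) K (hT y) M 0
      have h2 : (((E y (ex (p x) (T y) M 0)).filter fun u =>
          u ≠ p x (ex (p x) (T y) M 0 + 1)).image
          (fun u => (u, p x (ex (p x) (T y) M 0 + 1)))).card ≤ 2 * K :=
        Finset.card_image_le.trans ((Finset.card_filter_le _ _).trans (hE y _))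
      have h3 : (((T y (ex (p x) (T y) M 0)).filter fun u => u ≠ p x (ex (p x) (T y) M 0)).image
          (fun u => (u, p x (ex (p x) (T y) M 0)))).card ≤ K :=
        Finset.card_image_le.trans ((Finset.card_filter_le _ _).trans (hT y _))
      have h4 : (M + 3) * K = M * K + (2 * K + K) := by ring
      rw [h4]
      exact (Finset.card_union_le _ _).trans (add_le_add h1
        ((Finset.card_union_le _ _).trans (add_le_add h2 h3)))
  · intro w hw
    change w ∈ (if ∃ e, ∀ x, F x y = e then (∅ : Finset (Node × Node)) else _) at hw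
    split_ifs at hw with hy
    · simp at hw
    · rcases Finset.mem_union.1 hw with hw | hw
      · exact ne_prs _ _ _ _ w hw
      · rcases Finset.mem_union.1 hw with hw | hw
        · obtain ⟨u, hu, rfl⟩ := Finset.mem_image.1 hw
          exact (Finset.mem_filter.1 hu).2
        · obtain ⟨u, hu, rfl⟩ := Finset.mem_image.1 hw
          exact (Finset.mem_filter.1 hu).2
  · show fin' h y (srch h (p x) (T y) M 0) (h (p x (srch h (p x) (T y) M 0)))
      (h (p x (srch h (p x) (T y) M 0 + 1))) = F x y
    by_cases hy : ∃ e, ∀ x, F x y = e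
    · have e1 : fin' h y (srch h (p x) (T y) M 0) (h (p x (srch h (p x) (T y) M 0)))
          (h (p x (srch h (p x) (T y) M 0 + 1))) = Classical.choose hy := dif_pos hy
      rw [e1]
      exact (Classical.choose_spec hy x).symm
    · have hS : S x y = prs (p x) (T y) M 0 ∪
        (((E y (ex (p x) (T y) M 0)).filter fun u => u ≠ p x (ex (p x) (T y) M 0 + 1)).image
          (fun u => (u, p x (ex (p x) (T y) M 0 + 1))) ∪
        ((T y (ex (p x) (T y) M 0)).filter fun u => u ≠ p x (ex (p x) (T y) M 0)).image
          (fun u => (u, p x (ex (p x) (T y) M 0)))) := if_neg hy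
      rw [hS] at hsep
      have h0 : p x 0 ∈ T y 0 := by
        rcases root y with h1 | h1
        · exact h1 x
        · exact absurd h1 hy
      have hj := srch_eq_ex h (p x) (T y) M 0
        fun w hw => hsep w (Finset.mem_union_left _ hw)
      have hex := ex_spec (p x) (T y) M 0 h0 (by rw [zero_add]; exact top x y)
      have e1 : fin' h y (srch h (p x) (T y) M 0) (h (p x (srch h (p x) (T y) M 0)))
          (h (p x (srch h (p x) (T y) M 0 + 1))) =
          fin h (T y) (E y) (g y) (c y) (srch h (p x) (T y) M 0)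
            (h (p x (srch h (p x) (T y) M 0))) (h (p x (srch h (p x) (T y) M 0 + 1))) := dif_neg hy
      rw [e1, hj]
      have h5 := fin_spec h (T y) (E y) (g y) (c y) (ex (p x) (T y) M 0)
        (p x (ex (p x) (T y) M 0)) (p x (ex (p x) (T y) M 0 + 1)) hex.1
        (fun u hu hne => hsep (u, p x (ex (p x) (T y) M 0 + 1))
          (Finset.mem_union_right _ (Finset.mem_union_left _
            (Finset.mem_image.2 ⟨u, Finset.mem_filter.2 ⟨hu, hne⟩, rfl⟩))))
        (fun u hu hne => hsep (u, p x (ex (p x) (T y) M 0))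
          (Finset.mem_union_right _ (Finset.mem_union_right _
            (Finset.mem_image.2 ⟨u, Finset.mem_filter.2 ⟨hu, hne⟩, rfl⟩))))
      have h6 := val x y _ hex.1 hex.2
      by_cases hw : p x (ex (p x) (T y) M 0 + 1) ∈ E y (ex (p x) (T y) M 0)
      · rw [h5.1 hw, h6.1 hw]
      · rw [h5.2 hw, h6.2 hw]

end Pool.Agent.H.MP_dd1c2e_lc.Alt
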