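import Pool.Agent.H.MP_dd1c2e_lc.alt.Exc2
import Pool.Agent.H.MP_dd1c2e_lc.alt.Proto

/-!
# The randomized protocol for matrices with few alternations
-/

namespace Pool.Agent.H.MP_dd1c2e_lc.Alt

open Finset

/-- The statement for a matrix with rows `0, ..., N - 1`, given as a function `f` on `ℕ`.

Proof. `rand_proto` with `Node = Fin N`, `L = 2 ^ M`, `p x j = ⟨st f L j x, _⟩` (`st_le`), `T y j` = the set of `u : Fin N`
with `u.1 ∈ Tn f L N y j`, `E y j` = the set of `u : Fin N` with `u.1 ∈ En f L N y j` (their cardinalities are at most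
those of `Tn`, `En`, by the injection `Fin.val`; `card_Tn`, `card_En`), `g y j u = f u.1 y`,
`c y j u = f x₀ y` for a chosen `x₀ < N` with `st f L j x₀ = u.1`, `st f L (j + 1) x₀ ∉ En f L N y j` if there is one, and
`false` otherwise.
`top` is `act_top` for `j = 2 ^ M = L`. `val`, first part: `f x y = f (st (j + 1) x) y` by `const_of_not_mem` for `j + 1`
and `z = st (j + 1) x`, whose piece is the same by `st_between`. `val`, second part: `default_eq` for `x` and the chosen
`x₀`. `root`: if `Tn f L N y 0` is not empty it contains `0 = st f L 0 x` for all `x` (it is the image of a set under the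
constant function `0`); if it is empty the column is constant by `const_of_not_mem` for `j = 0` (take `e = f 0 y`; if
`N = 0` there is no row). -/
theorem rand_nat {Y : Type} (N K M b : ℕ) (f : ℕ → Y → Bool) (hK : ∀ y, (al f N y).card ≤ K)
    (hL : ∀ x < N, ¬ Lit f (2 ^ M + 1) (Set.Icc 0 x)) (hb : 3 * ((M + 3) * K) ≤ 2 ^ b) :
    RandComputes (fun (x : Fin N) y => f x.1 y) ((M + 2) * (b + 1)) := by
  classical
  obtain ⟨L, hLM⟩ : ∃ L : ℕ, L = 2 ^ M := ⟨_, rfl⟩
  rw [← hLM] at hL
  have hstN : ∀ (x : Fin N) (j : ℕ), st f L j x.1 < N := fun x j => (st_le f L j x.1).trans_lt x.2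
  have hpb : ∀ s : Finset ℕ, (univ.filter fun u : Fin N => u.1 ∈ s).card ≤ s.card := by
    intro s
    refine Finset.card_le_card_of_injOn (fun u : Fin N => u.1) ?_ ?_
    · intro u hu
      exact (Finset.mem_filter.1 hu).2
    · intro u _ v _ h
      exact Fin.ext h
  have hmem : ∀ (s : Finset ℕ) (u : Fin N), u ∈ (univ.filter fun u : Fin N => u.1 ∈ s) ↔ u.1 ∈ s := by
    intro s u
    simp
  refine rand_proto (Node := Fin N) (fun (x : Fin N) y => f x.1 y) M K b
    (fun x j => ⟨st f L j x.1, hstN x j⟩)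
    (fun y j => univ.filter fun u : Fin N => u.1 ∈ Tn f L N y j)
    (fun y j => univ.filter fun u : Fin N => u.1 ∈ En f L N y j) (fun y _ u => f u.1 y)
    (fun y j u => if h : ∃ x₀ : Fin N, st f L j x₀.1 = u.1 ∧ st f L (j + 1) x₀.1 ∉ En f L N y j then
      f h.choose.1 y else false) ?_ ?_ ?_ ?_ ?_ hb
  · intro y j
    exact (hpb _).trans ((card_Tn _ _ _ _ _).trans (hK y))
  · intro y j
    exact (hpb _).trans ((card_En _ _ _ _ _).trans (Nat.mul_le_mul_left 2 (hK y)))
  · intro x y h
    rw [hmem] at h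
    exact act_top f L N hL y (2 ^ M) x.1 hLM.le h
  · intro x y j h1 h2
    rw [hmem] at h1 h2
    constructor
    · intro _
      exact (const_of_not_mem f L N y (j + 1) x.1 (st f L (j + 1) x.1) x.2 (hstN x _) h2
        (st_between f L (j + 1) x.1 _ le_rfl (st_le _ _ _ _))).symm
    · intro h3
      rw [hmem] at h3
      have hP : ∃ x₀ : Fin N, st f L j x₀.1 = (⟨st f L j x.1, hstN x j⟩ : Fin N).1 ∧
          st f L (j + 1) x₀.1 ∉ En f L N y j := ⟨x, rfl, h3⟩
      have hs := hP.choose_spec
      have h4 : f x.1 y = f hP.choose.1 y :=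
        default_eq f L N hL y j x.1 hP.choose.1 x.2 hP.choose.2 h1 hs.1.symm h3 hs.2
      show f x.1 y = _
      rw [dif_pos hP]
      exact h4
  · intro y
    by_cases hne : (Tn f L N y 0).Nonempty
    · left
      intro x
      rw [hmem]
      obtain ⟨u, hu⟩ := hne
      have h5 : u = 0 := by
        unfold Tn at hu
        obtain ⟨t, _, rfl⟩ := Finset.mem_image.1 hu
        rfl
      subst h5
      exact hu
    · right
      refine ⟨f 0 y, fun x => ?_⟩
      have h0 : (0 : ℕ) < N := lt_of_le_of_lt (Nat.zero_le _) x.2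
      exact const_of_not_mem f L N y 0 0 x.1 h0 x.2 (fun h => hne ⟨_, h⟩) rfl

end Pool.Agent.H.MP_dd1c2e_lc.Alt
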