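import Pool.Agent.H.MP_dd1c2e_lc.alt.D
import Pool.Agent.H.MP_dd1c2e_lc.pdt.Comp

/-!
# Binary search along a path, with hashed nodes: the deterministic protocol for fixed coins
-/

namespace Pool.Agent.H.MP_dd1c2e_lc.Alt

open Finset

/-- The test made in the position `j`: is the message `v` (the hash of Alice's node) the hash of a node in `T j`? -/
noncomputable def tst {Node : Type} {b : ℕ} (h : Node → Fin b → Bool) (T : ℕ → Finset Node) (j : ℕ) (v : Fin b → Bool) :
    Bool := by
  classical
  exact decide (∃ u ∈ T j, h u = v)

/-- Binary search: `m` rounds, starting with the position `lo`; the last position for which the test succeeds is in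
`[lo, lo + 2^m)`. -/
noncomputable def srch {Node : Type} {b : ℕ} (h : Node → Fin b → Bool) (p : ℕ → Node) (T : ℕ → Finset Node) :
    ℕ → ℕ → ℕ
  | 0, lo => lo
  | m + 1, lo => if tst h T (lo + 2 ^ m) (h (p (lo + 2 ^ m))) then srch h p T m (lo + 2 ^ m) else srch h p T m lo

/-- For fixed coins `h` the search and a final answer of Bob computed from the hashes of the nodes in the positions found
and found plus one can be done with `m (b + 1) + (2 b + 1)` bits.

Proof. Induction on `m`, for all `X`, `Y`, `p`, `T`, `fin`, `lo`. `m = 0`: the function is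
`fin y lo (h (p x lo)) (h (p x (lo + 1)))`; Alice sends `h (p x lo)` and `h (p x (lo + 1))` (`det_alice_bits` twice, the
inner one on the subtype), then the answer depends on `y` only (`comp_det_swap (det_one ..)`). `m + 1`: Alice sends
`v = h (p x (lo + 2^m))` (`det_alice_bits`), Bob answers with the bit `tst h (T y) (lo + 2^m) v` (`det_bob` with the type
`Bool`, `m = 1`), and on the remaining subtypes the function is the one for `m` rounds with `lo + 2^m` or `lo`; use the
induction hypothesis for `p`, `T`, `fin` restricted to the subtypes (the equality of the functions follows from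
`simp only [srch, ...]`, and `DetComputes` can be transported along an equality of functions). -/
theorem det_srch {Node : Type} {b : ℕ} (h : Node → Fin b → Bool) :
    ∀ (m : ℕ) (X Y : Type) (p : X → ℕ → Node) (T : Y → ℕ → Finset Node)
      (fin : Y → ℕ → (Fin b → Bool) → (Fin b → Bool) → Bool) (lo : ℕ),
      DetComputes (fun x y => fin y (srch h (p x) (T y) m lo) (h (p x (srch h (p x) (T y) m lo)))
        (h (p x (srch h (p x) (T y) m lo + 1)))) (m * (b + 1) + (2 * b + 1)) := by
  intro m
  induction m with
  | zero =>
    intro X Y p T fin lo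
    have e : 0 * (b + 1) + (2 * b + 1) = b + (b + 1) := by ring
    rw [e]
    refine det_alice_bits (fun x => h (p x lo)) fun v => ?_
    refine det_alice_bits (fun x => h (p x.1 (lo + 1))) fun w => ?_
    refine comp_det_swap (det_one (fun y => fin y lo v w) fun y x => ?_)
    show fin y lo (h (p x.1.1 lo)) (h (p x.1.1 (lo + 1))) = fin y lo v w
    rw [x.1.2, x.2]
  | succ m ih =>
    intro X Y p T fin lo
    have e : (m + 1) * (b + 1) + (2 * b + 1) = b + (1 + (m * (b + 1) + (2 * b + 1))) := by ring
    rw [e]
    refine det_alice_bits (fun x => h (p x (lo + 2 ^ m))) fun v => ?_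
    refine det_bob (A := Bool) (fun y => tst h (T y) (lo + 2 ^ m) v) (by simp) fun c => ?_
    obtain ⟨P, h1, h2⟩ := ih {x : X // h (p x (lo + 2 ^ m)) = v}
      {y : Y // tst h (T y) (lo + 2 ^ m) v = c} (fun x => p x.1) (fun y => T y.1)
      (fun y => fin y.1) (if c then lo + 2 ^ m else lo)
    refine ⟨P, h1, fun x y => (h2 x y).trans ?_⟩
    have h3 : srch h (p x.1) (T y.1) (m + 1) lo =
        srch h (p x.1) (T y.1) m (if c then lo + 2 ^ m else lo) := by
      show (if tst h (T y.1) (lo + 2 ^ m) (h (p x.1 (lo + 2 ^ m))) then
        srch h (p x.1) (T y.1) m (lo + 2 ^ m) else srch h (p x.1) (T y.1) m lo) = _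
      rw [x.2, y.2]
      cases c <;> rfl
    simp only [h3]

end Pool.Agent.H.MP_dd1c2e_lc.Alt
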